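import Mathlib

namespace Pool.Agent.H.MP_3f621b_al

open Cardinal

universe u

variable {Y : Type u}

def Inj (A B : Set Y) (R : Y → Y → Prop) : Prop :=
  ∃ f : Y → Y, Set.InjOn f A ∧ ∀ x ∈ A, f x ∈ B ∧ R x (f x)

theorem Inj.mono {A B A' B' : Set Y} {R R' : Y → Y → Prop} (h : Inj A B R) (hA : A' ⊆ A)
    (hR : ∀ x ∈ A', ∀ y ∈ B, R x y → y ∈ B' ∧ R' x y) : Inj A' B' R' := by
  obtain ⟨f, hf, h⟩ := h
  exact ⟨f, hf.mono hA, fun x hx => hR x hx _ (h x (hA hx)).1 (h x (hA hx)).2⟩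

theorem Inj.card {A B A' B' : Set Y} {R : Y → Y → Prop} (h : Inj A B R) (hA : A' ⊆ A)
    (hR : ∀ x ∈ A', ∀ y ∈ B, R x y → y ∈ B') : #A' ≤ #B' := by
  obtain ⟨f, hf, h⟩ := h
  refine mk_le_of_injective (f := fun x : A' => (⟨f x, hR x x.2 _ (h x (hA x.2)).1
    (h x (hA x.2)).2⟩ : B')) fun x y e => ?_
  exact Subtype.ext (hf (hA x.2) (hA y.2) (congrArg Subtype.val e))

theorem Inj.of_card {A B : Set Y} (h : #A ≤ #B) : Inj A B fun _ _ => True := by
  classical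
  obtain ⟨e⟩ := (Cardinal.le_def _ _).1 h
  refine ⟨fun x => if hx : x ∈ A then (e ⟨x, hx⟩ : Y) else x, fun x hx y hy h => ?_,
    fun x hx => ⟨?_, trivial⟩⟩
  · simp only [dif_pos hx, dif_pos hy] at h
    exact congrArg Subtype.val (e.injective (Subtype.ext h))
  · simp only [dif_pos hx]
    exact (e _).2

theorem Inj.of_rel {A B : Set Y} {N : Y → Y → Prop} (h : ∀ x ∈ A, ∃ y ∈ B, N x y)
    (h' : ∀ x ∈ A, ∀ x' ∈ A, ∀ y ∈ B, N x y → N x' y → x = x') : Inj A B N := by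
  classical
  choose! f hf hf' using h
  exact ⟨f, fun x hx x' hx' e => h' x hx x' hx' _ (hf x hx) (hf' x hx) (e ▸ hf' x' hx'),
    fun x hx => ⟨hf x hx, hf' x hx⟩⟩

theorem Inj.glue {K : Type*} {A B : Set Y} {R : Y → Y → Prop} (κ κ' : Y → K)
    (h : ∀ k, Inj {x ∈ A | κ x = k} {y ∈ B | κ' y = k} R) : Inj A B R := by
  choose f hf hf' using h
  refine ⟨fun x => f (κ x) x, fun x hx y hy e => ?_,
    fun x hx => ⟨(hf' _ x ⟨hx, rfl⟩).1.1, (hf' _ x ⟨hx, rfl⟩).2⟩⟩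
  have h1 := (hf' _ x ⟨hx, rfl⟩).1.2
  have h2 := (hf' _ y ⟨hy, rfl⟩).1.2
  simp only at e
  have h3 : κ x = κ y := by rw [← h1, ← h2, e]
  refine hf (κ y) ⟨hx, h3⟩ ⟨hy, rfl⟩ ?_
  rw [← e, h3]

theorem greedy {ι : Type u} (r : ι → ι → Prop) (hw : WellFounded r)
    (htri : ∀ i j, i ≠ j → r i j ∨ r j i) (S : ι → Set Y) (d : ι → Y)
    (h : ∀ i, #{j | r j i} < #(S i)) : ∃ f : ι → Y, Function.Injective f ∧ ∀ i, f i ∈ S i := by
  classical
  let G : ∀ i, (∀ j, r j i → Y) → Y := fun i ih =>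
    if e : ∃ y ∈ S i, ∀ j (hj : r j i), ih j hj ≠ y then e.choose else d i
  let f : ι → Y := hw.fix G
  have hf : ∀ i, f i ∈ S i ∧ ∀ j, r j i → f j ≠ f i := by
    intro i
    have e : ∃ y ∈ S i, ∀ j (_ : r j i), f j ≠ y := by
      by_contra hc
      have : S i ⊆ f '' {j | r j i} := by
        intro y hy
        by_contra hy'
        exact hc ⟨y, hy, fun j hj e => hy' ⟨j, hj, e⟩⟩
      exact absurd ((mk_le_mk_of_subset this).trans mk_image_le) (not_le.2 (h i))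
    have h1 : f i = G i fun j _ => f j := hw.fix_eq G i
    have h2 : G i (fun j _ => f j) = e.choose := dif_pos e
    rw [h1, h2]
    exact e.choose_spec
  refine ⟨f, fun i j e => ?_, fun i => (hf i).1⟩
  by_contra hne
  rcases htri i j hne with h | h
  exacts [(hf j).2 i h e, (hf i).2 j h e.symm]

theorem chainHall (A B : Set Y) (l l' : Y → ℕ∞)
    (h : ∀ n, #{x ∈ A | n ≤ l x} ≤ #{y ∈ B | n ≤ l' y}) : Inj A B fun x y => l x ≤ l' y := by
  classical
  let μ : ℕ∞ → Cardinal.{u} := fun n => #{y ∈ B | n ≤ l' y}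
  have key : ∀ (P : Cardinal.{u} → Prop) (x : A), P (μ (l x)) →
      ∃ x0 : A, P (μ (l x0)) ∧ #{z : A | P (μ (l z))} ≤ μ (l x0) := by
    intro P x hx
    obtain ⟨x0, h0, hm⟩ := (InvImage.wf (fun z : A => l z) wellFounded_lt).has_min
      {z : A | P (μ (l z))} ⟨x, hx⟩
    refine ⟨x0, h0, le_trans ?_ (h (l x0))⟩
    refine mk_le_of_injective (f := fun z => ⟨z.1.1, z.1.2, not_lt.1 (hm z.1 z.2)⟩) ?_
    intro z w e
    have e' := Subtype.ext_iff.1 e
    exact Subtype.ext (Subtype.ext e')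
  have hρ : ∀ c : Cardinal.{u}, ∃ ρ : A → Ordinal.{u}, Set.InjOn ρ {z | μ (l z) = c} ∧
      ∀ z : A, μ (l z) = c → ρ z < c.ord := by
    intro c
    by_cases hc : ∃ x : A, μ (l x) = c
    · obtain ⟨x, hx⟩ := hc
      obtain ⟨x0, h0, h1⟩ := key (· = c) x hx
      obtain ⟨e⟩ := (Cardinal.le_def _ _).1 (h1.trans (h0.trans (mk_ord_toType c).symm).le)
      refine ⟨fun z => if hz : μ (l z) = c then
        ((Ordinal.ToType.mk.symm (e ⟨z, hz⟩)).1) else 0, ?_, ?_⟩
      · intro z hz w hw e'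
        have hz' : μ (l z) = c := hz
        have hw' : μ (l w) = c := hw
        simp only [dif_pos hz', dif_pos hw'] at e'
        have := e.injective (Ordinal.ToType.mk.symm.injective (Subtype.ext e'))
        exact congrArg Subtype.val this
      · intro z hz
        simp only [dif_pos hz]
        exact (Ordinal.ToType.mk.symm (e ⟨z, hz⟩)).2
    · exact ⟨fun _ => 0, fun z hz => absurd ⟨z, hz⟩ hc, fun z hz => absurd ⟨z, hz⟩ hc⟩
  choose ρ hρ hρ' using hρ
  let r : A → A → Prop := fun z w =>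
    μ (l z) < μ (l w) ∨ (μ (l z) = μ (l w) ∧ ρ (μ (l z)) z < ρ (μ (l w)) w)
  have hw : WellFounded r := by
    have := InvImage.wf (fun z : A => (μ (l z), ρ (μ (l z)) z))
      (WellFounded.prod_lex (wellFounded_lt (α := Cardinal.{u})) (wellFounded_lt (α := Ordinal.{u})))
    refine Subrelation.wf (fun {z w} hzw => ?_) this
    exact Prod.lex_def.2 hzw
  have htri : ∀ i j, i ≠ j → r i j ∨ r j i := by
    intro i j hne
    rcases lt_trichotomy (μ (l i)) (μ (l j)) with e | e | e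
    · exact Or.inl (Or.inl e)
    · rcases lt_trichotomy (ρ (μ (l i)) i) (ρ (μ (l j)) j) with e' | e' | e'
      · exact Or.inl (Or.inr ⟨e, e'⟩)
      · rw [e] at e'
        exact absurd (hρ _ e rfl e') hne
      · exact Or.inr (Or.inr ⟨e.symm, e'⟩)
    · exact Or.inr (Or.inl e)
  obtain ⟨f, hf, hf'⟩ := greedy r hw htri (fun z : A => {y ∈ B | l z ≤ l' y}) (fun z => z.1) (by
    intro x
    show #{j | r j x} < μ (l x)
    have hpos : 0 < μ (l x) := by
      refine lt_of_lt_of_le ?_ (h (l x))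
      exact pos_iff_ne_zero.2 (mk_ne_zero_iff.2 ⟨⟨x.1, x.2, le_rfl⟩⟩)
    rcases lt_or_ge (μ (l x)) ℵ₀ with hfin | hinf
    · obtain ⟨x0, h0, h1⟩ := key (· ≤ μ (l x)) x le_rfl
      have hf : {z : A | μ (l z) ≤ μ (l x)}.Finite :=
        lt_aleph0_iff_set_finite.1 ((h1.trans h0).trans_lt hfin)
      have hss : {j | r j x} ⊂ {z : A | μ (l z) ≤ μ (l x)} := by
        refine ⟨fun j hj => ?_, fun hc => ?_⟩
        · rcases hj with hj | hj
          exacts [hj.le, hj.1.le]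
        · rcases hc (show μ (l x) ≤ μ (l x) from le_rfl) with hj | hj
          exacts [lt_irrefl _ hj, lt_irrefl _ hj.2]
      refine lt_of_lt_of_le ?_ (h1.trans h0)
      exact card_lt_card_of_right_finite hf hss
    · have h1 : #{z : A | μ (l z) < μ (l x)} < μ (l x) := by
        by_cases hc : ∃ z : A, μ (l z) < μ (l x)
        · obtain ⟨z, hz⟩ := hc
          obtain ⟨x0, h0, h1⟩ := key (· < μ (l x)) z hz
          exact h1.trans_lt h0
        · have : {z : A | μ (l z) < μ (l x)} = ∅ :=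
            Set.eq_empty_of_forall_notMem fun z hz => hc ⟨z, hz⟩
          rw [this]
          simpa using hpos
      have h2 : #{z : A | μ (l z) = μ (l x) ∧ ρ (μ (l z)) z < ρ (μ (l x)) x} < μ (l x) := by
        refine lt_of_le_of_lt ?_ (lt_ord.1 (hρ' _ x rfl))
        rw [← mk_toType]
        refine mk_le_of_injective (f := fun z => Ordinal.ToType.mk ⟨ρ (μ (l z.1)) z.1, z.2.2⟩) ?_
        intro z w e
        have e' := congrArg Subtype.val (Ordinal.ToType.mk.injective e)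
        simp only at e'
        rw [z.2.1, w.2.1] at e'
        exact Subtype.ext (hρ _ z.2.1 w.2.1 e')
      exact lt_of_le_of_lt (mk_union_le _ _) (add_lt_of_lt hinf h1 h2))
  refine ⟨fun x => if hx : x ∈ A then f ⟨x, hx⟩ else x, fun x hx y hy e => ?_, fun x hx => ?_⟩
  · simp only [dif_pos hx, dif_pos hy] at e
    exact congrArg Subtype.val (hf e)
  · simp only [dif_pos hx]
    exact hf' ⟨x, hx⟩

def Near (p q : ℕ) : Prop := p ≤ q + 1 ∧ q ≤ p + 1

theorem levels (A B : Set Y) (l l' : Y → ℕ)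
    (h : ∀ i j, 2 ≤ i → #{x ∈ A | i ≤ l x ∧ l x ≤ j} ≤ #{y ∈ B | i - 1 ≤ l' y ∧ l' y ≤ j + 1})
    (m : ℕ) : ∀ P : Set ℕ, (∀ p ∈ P, 2 ≤ p ∧ p < m) →
      #{x ∈ A | l x ∈ P} ≤ #{y ∈ B | ∃ p ∈ P, Near p (l' y)} := by
  classical
  induction m using Nat.strong_induction_on with
  | _ m ih =>
  intro P hP
  rcases P.eq_empty_or_nonempty with rfl | hne
  · simp
  have hfin : P.Finite := (Set.finite_Iio m).subset fun p hp => (hP p hp).2
  obtain ⟨j, hj, hjm⟩ := hfin.exists_maximal hne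
  have hjm' : ∀ p ∈ P, p ≤ j := fun p hp => by
    rcases le_total p j with e | e
    exacts [e, hjm hp e]
  have hex : ∃ i, 2 ≤ i ∧ i ≤ j ∧ ∀ q, i - 1 ≤ q → q ≤ j + 1 → ∃ p ∈ P, Near p q :=
    ⟨j, (hP j hj).1, le_rfl, fun q h1 h2 => ⟨j, hj, by omega, h2⟩⟩
  obtain ⟨hi2, hij, hi⟩ := Nat.find_spec hex
  set i := Nat.find hex with hdef
  have hsep : ∀ p ∈ P, p < i → p + 2 < i := by
    intro p hp hpi
    by_contra hc
    refine Nat.find_min hex hpi ⟨(hP p hp).1, by omega, fun q h1 h2 => ?_⟩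
    by_cases hq : i - 1 ≤ q
    · exact hi q hq h2
    · exact ⟨p, hp, by omega, by omega⟩
  have h1 := ih i (by have := (hP j hj).2; omega) {p ∈ P | p < i}
    fun p hp => ⟨(hP p hp.1).1, hp.2⟩
  have h2 := h i j hi2
  calc #{x ∈ A | l x ∈ P}
      ≤ #({x ∈ A | l x ∈ {p ∈ P | p < i}} ∪ {x ∈ A | i ≤ l x ∧ l x ≤ j} : Set Y) := by
        refine mk_le_mk_of_subset fun x hx => ?_
        by_cases hq : l x < i
        · exact Or.inl ⟨hx.1, hx.2, hq⟩
        · exact Or.inr ⟨hx.1, by omega, hjm' _ hx.2⟩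
    _ ≤ _ := mk_union_le _ _
    _ ≤ _ := add_le_add h1 h2
    _ = #({y ∈ B | ∃ p ∈ {p ∈ P | p < i}, Near p (l' y)} ∪
          {y ∈ B | i - 1 ≤ l' y ∧ l' y ≤ j + 1} : Set Y) := by
        refine (mk_union_of_disjoint ?_).symm
        rw [Set.disjoint_left]
        rintro y ⟨-, p, hp, hn⟩ ⟨-, h3, -⟩
        have := hsep p hp.1 hp.2
        have := hn.2
        omega
    _ ≤ _ := by
        refine mk_le_mk_of_subset ?_
        rintro y (⟨hy, p, hp, hn⟩ | ⟨hy, h3, h4⟩)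
        exacts [⟨hy, p, hp.1, hn⟩, ⟨hy, hi _ h3 h4⟩]

theorem intervalHall (A B : Set Y) (l l' : Y → ℕ) (hA : ∀ x ∈ A, 2 ≤ l x)
    (h : ∀ i j, 2 ≤ i → #{x ∈ A | i ≤ l x ∧ l x ≤ j} ≤ #{y ∈ B | i - 1 ≤ l' y ∧ l' y ≤ j + 1}) :
    Inj A B fun x y => Near (l x) (l' y) := by
  classical
  let Bq : ℕ → Set Y := fun q => {y ∈ B | l' y = q}
  let rich : ℕ → Prop := fun p => ∃ q, Near p q ∧ (Bq q).Infinite
  refine Inj.glue (fun x => rich (l x)) (fun y => (Bq (l' y)).Infinite) fun k => ?_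
  by_cases hk : k
  · have hq : ∀ p, 2 ≤ p → rich p →
        ∃ q, Near p q ∧ (Bq q).Infinite ∧ #{x ∈ A | l x = p} ≤ #(Bq q) := by
      rintro p hp ⟨q, hq, hq'⟩
      obtain ⟨q0, h0, hm⟩ := (Finset.Icc (p - 1) (p + 1)).exists_max_image (fun q => #(Bq q))
        ⟨p, by simp⟩
      have hmem : ∀ q, Near p q ↔ q ∈ Finset.Icc (p - 1) (p + 1) := fun q => by
        simp only [Near, Finset.mem_Icc]; omega
      have hinf : ℵ₀ ≤ #(Bq q0) :=
        (aleph0_le_mk_iff.2 hq'.to_subtype).trans (hm q ((hmem q).1 hq))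
      refine ⟨q0, (hmem _).2 h0, Set.infinite_coe_iff.1 (aleph0_le_mk_iff.1 hinf), ?_⟩
      calc #{x ∈ A | l x = p} ≤ #{x ∈ A | p ≤ l x ∧ l x ≤ p} :=
            mk_le_mk_of_subset fun x hx => ⟨hx.1, hx.2.ge, hx.2.le⟩
        _ ≤ _ := h p p hp
        _ ≤ #(Bq (p - 1) ∪ Bq p ∪ Bq (p + 1) : Set Y) := by
            refine mk_le_mk_of_subset fun y hy => ?_
            have h1 := hy.2.1
            have h2 := hy.2.2
            rcases (by omega : l' y = p - 1 ∨ l' y = p ∨ l' y = p + 1) with e | e | e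
            exacts [Or.inl (Or.inl ⟨hy.1, e⟩), Or.inl (Or.inr ⟨hy.1, e⟩), Or.inr ⟨hy.1, e⟩]
        _ ≤ #(Bq (p - 1)) + #(Bq p) + #(Bq (p + 1)) :=
            (mk_union_le _ _).trans (add_le_add (mk_union_le _ _) le_rfl)
        _ ≤ _ := add_le_of_le hinf (add_le_of_le hinf (hm _ (by simp; omega)) (hm _ (by simp)))
            (hm _ (by simp; omega))
    choose! q hq1 hq2 hq3 using hq
    refine Inj.glue (fun x => q (l x)) l' fun c => ?_
    by_cases hc : (Bq c).Infinite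
    · have hinf : ℵ₀ ≤ #(Bq c) := aleph0_le_mk_iff.2 hc.to_subtype
      let T : ℕ → Set Y := fun p => {x ∈ A | l x = p ∧ rich p ∧ q p = c}
      have hT : ∀ p, #(T p) ≤ #(Bq c) := by
        intro p
        rcases (T p).eq_empty_or_nonempty with e | ⟨x, hx, e1, e2, e3⟩
        · rw [e]; simp
        · rw [← e3]
          refine le_trans (mk_le_mk_of_subset ?_) (hq3 p (e1 ▸ hA x hx) e2)
          exact fun y hy => ⟨hy.1, hy.2.1⟩
      have : #{x ∈ {x ∈ A | rich (l x) = k} | q (l x) = c} ≤ #(Bq c) := by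
        calc _ ≤ #(T (c - 1) ∪ T c ∪ T (c + 1) : Set Y) := by
              refine mk_le_mk_of_subset ?_
              rintro x ⟨⟨hx, hr⟩, e⟩
              have hr' : rich (l x) := hr ▸ hk
              obtain ⟨h1, h2⟩ := hq1 _ (hA x hx) hr'
              rcases (by omega : l x = c - 1 ∨ l x = c ∨ l x = c + 1) with e' | e' | e'
              · exact Or.inl (Or.inl ⟨hx, e', e' ▸ hr', e' ▸ e⟩)
              · exact Or.inl (Or.inr ⟨hx, e', e' ▸ hr', e' ▸ e⟩)
              · exact Or.inr ⟨hx, e', e' ▸ hr', e' ▸ e⟩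
          _ ≤ #(T (c - 1)) + #(T c) + #(T (c + 1)) :=
              (mk_union_le _ _).trans (add_le_add (mk_union_le _ _) le_rfl)
          _ ≤ _ := add_le_of_le hinf (add_le_of_le hinf (hT _) (hT _)) (hT _)
      refine (Inj.of_card this).mono subset_rfl ?_
      rintro x ⟨⟨hx, hr⟩, e⟩ y ⟨hy, e'⟩ -
      refine ⟨⟨⟨hy, ?_⟩, e'⟩, ?_⟩
      · simp only [e']
        exact propext ⟨fun _ => hk, fun _ => hc⟩
      · rw [e', ← e]
        exact hq1 _ (hA x hx) (hr ▸ hk)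
    · refine ⟨id, Set.injOn_id _, ?_⟩
      rintro x ⟨⟨hx, hr⟩, e⟩
      exact absurd (e ▸ hq2 _ (hA x hx) (hr ▸ hk)) hc
  · let A2 : Set Y := {x ∈ A | rich (l x) = k}
    have hfin : ∀ x : A2, {y ∈ B | Near (l x) (l' y)}.Finite := by
      intro x
      have hr : ¬ rich (l x) := fun e => hk (x.2.2 ▸ e)
      refine ((Set.finite_Iic (l x + 1)).subset (t := {q | Near (l x) q})
        fun q hq => hq.2).biUnion (t := Bq) (fun q hq => ?_) |>.subset ?_
      · exact Set.not_infinite.1 fun e => hr ⟨q, hq, e⟩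
      · intro y hy
        exact Set.mem_biUnion (x := l' y) hy.2 ⟨hy.1, rfl⟩
    obtain ⟨f, hf, hf'⟩ := (Finset.all_card_le_biUnion_card_iff_exists_injective
      fun x : A2 => (hfin x).toFinset).1 (by
      intro s
      have h1 := levels A B l l' h (s.sup (fun x => l x) + 1) ((fun x : A2 => l x) '' s) (by
        rintro p ⟨x, hx, rfl⟩
        exact ⟨hA x x.2.1, Nat.lt_succ_of_le (Finset.le_sup (f := fun x : A2 => l x) hx)⟩)
      have h2 : #s ≤ #{x ∈ A | l x ∈ (fun x : A2 => l x) '' s} :=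
        mk_le_of_injective (f := fun x => ⟨x.1.1, x.1.2.1, x.1, x.2, rfl⟩)
          fun x y e => by
            have e' := Subtype.ext_iff.1 e
            exact Subtype.ext (Subtype.ext e')
      have h3 : #{y ∈ B | ∃ p ∈ (fun x : A2 => l x) '' s, Near p (l' y)} ≤
          #(s.biUnion fun x : A2 => (hfin x).toFinset) := by
        refine mk_le_mk_of_subset
          (t := ((s.biUnion fun x : A2 => (hfin x).toFinset : Finset Y) : Set Y)) ?_
        rintro y ⟨hy, p, ⟨x, hx, rfl⟩, hn⟩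
        simp only [Finset.coe_biUnion, Set.mem_iUnion, Set.Finite.coe_toFinset]
        exact ⟨x, hx, hy, hn⟩
      have := h2.trans (h1.trans h3)
      rw [mk_coe_finset, mk_coe_finset] at this
      exact_mod_cast this)
    refine ⟨fun x => if hx : x ∈ A2 then f ⟨x, hx⟩ else x, fun x hx y hy e => ?_, fun x hx => ?_⟩
    · have hx' : x ∈ A2 := hx
      have hy' : y ∈ A2 := hy
      simp only [dif_pos hx', dif_pos hy'] at e
      exact congrArg Subtype.val (hf e)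
    · have hx' : x ∈ A2 := hx
      simp only [dif_pos hx']
      have := (Set.Finite.mem_toFinset _).1 (hf' ⟨x, hx'⟩)
      refine ⟨⟨this.1, propext ⟨fun e => ?_, fun e => absurd e hk⟩⟩, this.2⟩
      exact hx'.2 ▸ (⟨_, this.2, e⟩ : rich (l x))

theorem matching {A A' B B' : Set Y} {R : Y → Y → Prop} (h : Inj A B' R)
    (h' : Inj B A' fun y x => R x y) (hA : A ⊆ A') (hB : B ⊆ B') :
    ∃ N : Y → Y → Prop, (∀ x y, N x y → x ∈ A' ∧ y ∈ B' ∧ R x y) ∧
      (∀ x y x' y', N x y → N x' y' → (x = x' ↔ y = y')) ∧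
      (∀ x ∈ A, ∃ y, N x y) ∧ ∀ y ∈ B, ∃ x, N x y := by
  classical
  obtain ⟨f, hf, hf'⟩ := h
  obtain ⟨g, hg, hg'⟩ := h'
  let F : A' ⊕ Y × ℕ → B' ⊕ Y × ℕ := Sum.elim
    (fun x => if hx : x.1 ∈ A then Sum.inl ⟨f x, (hf' x hx).1⟩ else Sum.inr (x.1, 0))
    fun z => Sum.inr (z.1, z.2 + 1)
  let G : B' ⊕ Y × ℕ → A' ⊕ Y × ℕ := Sum.elim
    (fun x => if hx : x.1 ∈ B then Sum.inl ⟨g x, (hg' x hx).1⟩ else Sum.inr (x.1, 0))
    fun z => Sum.inr (z.1, z.2 + 1)
  let Q : A' ⊕ Y × ℕ → B' ⊕ Y × ℕ → Prop := Sum.elim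
    (fun x => Sum.elim (fun y => R x y) fun _ => x.1 ∉ A)
    fun _ => Sum.elim (fun y => y.1 ∉ B) fun _ => True
  have hF : Function.Injective F := by
    rintro (x | ⟨x, n⟩) (y | ⟨y, m⟩) e
    · by_cases hx : x.1 ∈ A <;> by_cases hy : y.1 ∈ A <;> simp [F, hx, hy] at e
      · rw [Subtype.ext (hf hx hy e)]
      · rw [Subtype.ext e]
    · by_cases hx : x.1 ∈ A <;> simp [F, hx] at e
    · by_cases hy : y.1 ∈ A <;> simp [F, hy] at e
    · simpa [F] using e
  have hG : Function.Injective G := by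
    rintro (x | ⟨x, n⟩) (y | ⟨y, m⟩) e
    · by_cases hx : x.1 ∈ B <;> by_cases hy : y.1 ∈ B <;> simp [G, hx, hy] at e
      · rw [Subtype.ext (hg hx hy e)]
      · rw [Subtype.ext e]
    · by_cases hx : x.1 ∈ B <;> simp [G, hx] at e
    · by_cases hy : y.1 ∈ B <;> simp [G, hy] at e
    · simpa [G] using e
  obtain ⟨H, hH, hQ⟩ := Function.Embedding.schroeder_bernstein_of_rel hF hG Q (by
    rintro (x | z)
    · by_cases hx : x.1 ∈ A
      · simpa [F, Q, hx] using (hf' x hx).2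
      · simp [F, Q, hx]
    · simp [F, Q]) (by
    rintro (x | z)
    · by_cases hx : x.1 ∈ B
      · simpa [G, Q, hx] using (hg' x hx).2
      · simp [G, Q, hx]
    · simp [G, Q])
  refine ⟨fun x y => ∃ hx hy, H (Sum.inl ⟨x, hx⟩) = Sum.inl ⟨y, hy⟩, ?_, ?_, ?_, ?_⟩
  · rintro x y ⟨hx, hy, e⟩
    have := hQ (Sum.inl ⟨x, hx⟩)
    rw [e] at this
    exact ⟨hx, hy, this⟩
  · rintro x y x' y' ⟨hx, hy, e⟩ ⟨hx', hy', e'⟩
    constructor
    · rintro rfl
      simpa using e.symm.trans e'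
    · rintro rfl
      simpa using hH.1 (e.trans e'.symm)
  · intro x hx
    have := hQ (Sum.inl ⟨x, hA hx⟩)
    cases e : H (Sum.inl ⟨x, hA hx⟩) with
    | inl y => exact ⟨y, hA hx, y.2, e⟩
    | inr z => rw [e] at this; exact absurd hx this
  · intro y hy
    obtain ⟨w, e⟩ := hH.2 (Sum.inl ⟨y, hB hy⟩)
    have := hQ w
    rw [e] at this
    cases w with
    | inl x => exact ⟨x, x.2, hB hy, e⟩
    | inr z => exact absurd hy this

end Pool.Agent.H.MP_3f621b_al
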