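import Pool.Agent.H.MP_3f621b_al.Walk
import Pool.Agent.H.MP_3f621b_al.Hall

namespace Pool.Agent.H.MP_3f621b_al

open Cardinal

universe u

variable {X : Type u} {a b : X ≃. X}

theorem ofRel (G : X → X → Prop) (h1 : ∀ x y z, G x y → G x z → y = z)
    (h2 : ∀ x y z, G x z → G y z → x = y) : ∃ g : X ≃. X, ∀ x y, g x = some y ↔ G x y := by
  classical
  have e1 : ∀ x y, (if h : ∃ y, G x y then some h.choose else none) = some y ↔ G x y := by
    intro x y
    by_cases h : ∃ y, G x y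
    · rw [dif_pos h, Option.some_inj]
      exact ⟨fun e => e ▸ h.choose_spec, fun e => h1 _ _ _ h.choose_spec e⟩
    · rw [dif_neg h]
      exact ⟨fun e => by simp at e, fun e => absurd ⟨y, e⟩ h⟩
  have e2 : ∀ x y, (if h : ∃ x, G x y then some h.choose else none) = some x ↔ G x y := by
    intro x y
    by_cases h : ∃ x, G x y
    · rw [dif_pos h, Option.some_inj]
      exact ⟨fun e => e ▸ h.choose_spec, fun e => h2 _ _ _ h.choose_spec e⟩
    · rw [dif_neg h]
      exact ⟨fun e => by simp at e, fun e => absurd ⟨x, e⟩ h⟩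
  exact ⟨⟨fun x => if h : ∃ y, G x y then some h.choose else none,
    fun y => if h : ∃ x, G x y then some h.choose else none,
    fun x y => (e2 x y).trans (e1 x y).symm⟩, e1⟩

/-- base data: matched base points with an offset. -/
structure Base (a b : X ≃. X) (M : X → X → ℤ → Prop) : Prop where
  uniq : ∀ x y s x' y' s', M x y s → M x' y' s' → (x' ∈ comp a x ∨ y' ∈ comp b y) →
    x = x' ∧ y = y' ∧ s = s'
  per : ∀ x y s, M x y s → ∀ k, W a x k x ↔ W b y k y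

def Rel (a b : X ≃. X) (M : X → X → ℤ → Prop) (x y : X) : Prop :=
  ∃ p q s k, M p q s ∧ W a p k x ∧ W b q (k + s) y

theorem Base.build {M : X → X → ℤ → Prop} (h : Base a b M) :
    ∃ g : X ≃. X, ∀ x y, g x = some y ↔ Rel a b M x y := by
  refine ofRel _ ?_ ?_
  · rintro x y z ⟨p, q, s, k, hM, h1, h2⟩ ⟨p', q', s', k', hM', h1', h2'⟩
    obtain ⟨rfl, rfl, rfl⟩ := h.uniq _ _ _ _ _ _ hM hM' (Or.inl (h1.trans h1'.symm).mem)
    have := (h.per _ _ _ hM _).1 (h1.trans h1'.symm)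
    exact h2.uniq ((this.trans h2').cast (by ring))
  · rintro x y z ⟨p, q, s, k, hM, h1, h2⟩ ⟨p', q', s', k', hM', h1', h2'⟩
    obtain ⟨rfl, rfl, rfl⟩ := h.uniq _ _ _ _ _ _ hM hM' (Or.inr (h2.trans h2'.symm).mem)
    have := (h.per _ _ _ hM _).2 (h2.trans h2'.symm)
    exact h1.uniq ((this.trans h1').cast (by ring))

theorem base_of_matching (N : Set X → Set X → Prop) (Good : X → X → ℤ → Prop)
    (hN : ∀ C D, N C D → C ∈ Set.range (comp a) ∧ D ∈ Set.range (comp b))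
    (hu : ∀ C D C' D', N C D → N C' D' → (C = C' ↔ D = D'))
    (hG : ∀ C D, N C D → ∃ x ∈ C, ∃ y ∈ D, ∃ s, (∀ k, W a x k x ↔ W b y k y) ∧ Good x y s) :
    ∃ M, Base a b M ∧ (∀ x y s, M x y s → Good x y s) ∧
      ∀ C D, N C D → ∃ x ∈ C, ∃ y ∈ D, ∃ s, M x y s := by
  choose fx hx fy hy fs hp hg using hG
  refine ⟨fun x y s => ∃ C D h, fx C D h = x ∧ fy C D h = y ∧ fs C D h = s, ⟨?_, ?_⟩, ?_, ?_⟩
  · rintro _ _ _ _ _ _ ⟨C, D, h, rfl, rfl, rfl⟩ ⟨C', D', h', rfl, rfl, rfl⟩ hc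
    have : C = C' ∧ D = D' := by
      rcases hc with hc | hc
      · have e : C = C' := by
          rw [eq_comp (hN _ _ h).1 (hx C D h), eq_comp (hN _ _ h').1 (hx C' D' h')]
          exact comp_eq hc
        exact ⟨e, (hu _ _ _ _ h h').1 e⟩
      · have e : D = D' := by
          rw [eq_comp (hN _ _ h).2 (hy C D h), eq_comp (hN _ _ h').2 (hy C' D' h')]
          exact comp_eq hc
        exact ⟨(hu _ _ _ _ h h').2 e, e⟩
    obtain ⟨rfl, rfl⟩ := this
    exact ⟨rfl, rfl, rfl⟩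
  · rintro _ _ _ ⟨C, D, h, rfl, rfl, rfl⟩
    exact hp C D h
  · rintro _ _ _ ⟨C, D, h, rfl, rfl, rfl⟩
    exact hg C D h
  · intro C D h
    exact ⟨_, hx C D h, _, hy C D h, _, C, D, h, rfl, rfl, rfl⟩

def NI (a : X ≃. X) : Set (Set X) :=
  {C | C ∈ Set.range (comp a) ∧ (¬ HasEnd a C ∨ 2 ≤ C.encard)}

theorem ni_of_step {x y : X} (e : a x = some y) : comp a x ∈ NI a := by
  refine ⟨⟨x, rfl⟩, ?_⟩
  by_cases h : HasEnd a (comp a x)
  · right
    obtain ⟨t, ht, ht'⟩ := h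
    have hne : x ≠ t := by rintro rfl; simp [ht'] at e
    rw [← Set.encard_pair hne]
    refine Set.encard_le_encard ?_
    rintro z (rfl | rfl)
    exacts [self_mem _, ht]
  · exact Or.inl h

theorem step_of_ni {C : Set X} (h : C ∈ NI a) : ∃ x ∈ C, ∃ y, a x = some y := by
  obtain ⟨⟨x, rfl⟩, h⟩ := h
  rcases h with h | h
  · cases e : a x with
    | none => exact absurd ⟨x, self_mem x, e⟩ h
    | some y => exact ⟨x, self_mem x, y, e⟩
  · obtain ⟨p, q, hp, hq, hne⟩ := Set.one_lt_encard_iff.1 (lt_of_lt_of_le (by norm_num) h)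
    cases e : a p with
    | some y => exact ⟨p, hp, y, e⟩
    | none =>
      cases e' : a q with
      | some y => exact ⟨q, hq, y, e'⟩
      | none => exact absurd (end_uniq hp hq e e') hne

def Half (a b : X ≃. X) : Prop :=
  ∃ g : X ≃. X, (∀ x y, a x = some y → ∃ z, g y = some z) ∧ a.trans g = g.trans b

theorem half_iff : (∃ g ∈ PP1 a, a.trans g = g.trans b) ↔ Half a b := by
  classical
  constructor
  · rintro ⟨g, hg, e⟩
    refine ⟨g, fun x y h => ?_, e⟩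
    rcases hg with (⟨rfl, -⟩ | ⟨-, hg⟩) | rfl
    · simp at h
    · have h1 : (PEquiv.single x x).trans a ≠ ⊥ := by
        intro e'
        have : ((PEquiv.single x x).trans a) x = some y :=
          (PEquiv.trans_eq_some _ _ _ _).2 ⟨x, PEquiv.single_apply _ _, h⟩
        simp [e'] at this
      by_contra hc
      refine hg _ h1 (PEquiv.ext fun w => ?_)
      cases e' : ((PEquiv.single x x).trans a).trans g w with
      | none => rfl
      | some z =>
        obtain ⟨y', h2, h3⟩ := (PEquiv.trans_eq_some _ _ _ _).1 e'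
        obtain ⟨x', h4, h5⟩ := (PEquiv.trans_eq_some _ _ _ _).1 h2
        obtain ⟨-, rfl⟩ := (PEquiv.mem_single_iff _ _ _ _).1 h4
        obtain rfl := pfun h h5
        exact absurd ⟨z, h3⟩ hc
    · exact ⟨y, rfl⟩
  · rintro ⟨g, hg, e⟩
    by_cases ha : a = ⊥
    · exact ⟨⊥, Or.inl (Or.inl ⟨ha, rfl⟩), by simp⟩
    · refine ⟨g, Or.inl (Or.inr ⟨ha, fun m hm e' => hm (PEquiv.ext fun w => ?_)⟩), e⟩
      cases e1 : m.trans a w with
      | none => rfl
      | some y =>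
        obtain ⟨x, -, h2⟩ := (PEquiv.trans_eq_some _ _ _ _).1 e1
        obtain ⟨z, h3⟩ := hg x y h2
        have : (m.trans a).trans g w = some z := (PEquiv.trans_eq_some _ _ _ _).2 ⟨y, e1, h3⟩
        simp [e'] at this

def Rc (a b : X ≃. X) (C D : Set X) : Prop :=
  (HasEnd a C ↔ HasEnd b D) ∧ C.encard ≤ D.encard ∧ (¬ HasEnd a C → C.encard = D.encard) ∧
    (¬ HasEnd a C → ¬ HasStart a C → ¬ HasStart b D)

theorem encard_eq_of_per {x y : X} (h : ¬ HasEnd a (comp a x)) (h' : ¬ HasEnd b (comp b y))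
    (e : ∀ k : ℕ, W a x k x ↔ W b y k y) : (comp a x).encard = (comp b y).encard := by
  have h1 := (noEnd_per h' _).1 ((e _).1 ((noEnd_per h _).2 dvd_rfl))
  have h2 := (noEnd_per h _).1 ((e _).2 ((noEnd_per h' _).2 dvd_rfl))
  have h3 := Nat.dvd_antisymm (Int.natCast_dvd_natCast.1 h2) (Int.natCast_dvd_natCast.1 h1)
  have h4 := encard_ne_zero (a := a) x
  have h5 := encard_ne_zero (a := b) y
  generalize (comp a x).encard = m at *
  generalize (comp b y).encard = n at *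
  cases m <;> cases n <;> simp_all

theorem Half.inj (h : Half a b) : Inj (NI a) (Set.range (comp b)) (Rc a b) := by
  obtain ⟨g, hg, e⟩ := h
  have e1 : ∀ {x y z}, a x = some y → g y = some z → ∃ x', g x = some x' ∧ b x' = some z := by
    intro x y z h1 h2
    have : (a.trans g) x = some z := (PEquiv.trans_eq_some _ _ _ _).2 ⟨y, h1, h2⟩
    rw [e] at this
    exact (PEquiv.trans_eq_some _ _ _ _).1 this
  have e2 : ∀ {x x' z}, g x = some x' → b x' = some z → ∃ y, a x = some y ∧ g y = some z := by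
    intro x y z h1 h2
    have : (g.trans b) x = some z := (PEquiv.trans_eq_some _ _ _ _).2 ⟨y, h1, h2⟩
    rw [← e] at this
    exact (PEquiv.trans_eq_some _ _ _ _).1 this
  have T1 : ∀ {x x' y k}, g x = some x' → W a x k y → ∃ y', g y = some y' ∧ W b x' k y' := by
    intro x x' y k hx hw
    induction hw with
    | refl => exact ⟨x', hx, W.refl⟩
    | fwd _ h1 ih =>
      obtain ⟨y', h2, h3⟩ := ih
      obtain ⟨z', h4⟩ := hg _ _ h1
      obtain ⟨w, h5, h6⟩ := e1 h1 h4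
      obtain rfl := pfun h2 h5
      exact ⟨z', h4, h3.fwd h6⟩
    | bwd _ h1 ih =>
      obtain ⟨y', h2, h3⟩ := ih
      obtain ⟨w, h5, h6⟩ := e1 h1 h2
      exact ⟨w, h5, h3.bwd h6⟩
  have T2 : ∀ {x x' w k}, g x = some x' → W b x' k w → 0 ≤ k →
      ∃ y, W a x k y ∧ g y = some w := by
    intro x x' w k hx hw hk
    refine W.ind (fun k w => ∃ y, W a x k y ∧ g y = some w) ⟨x, W.refl, hx⟩ ?_ hw hk
    rintro j y z - ⟨y', h1, h2⟩ h3
    obtain ⟨v, h4, h5⟩ := e2 h2 h3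
    exact ⟨v, h1.fwd h4, h5⟩
  refine (Inj.of_rel (B := Set.range (comp b))
    (N := fun C D => ∃ x ∈ C, ∃ x' ∈ D, g x = some x') ?_ ?_).mono subset_rfl ?_
  · intro C hC
    obtain ⟨x, hx, y, h⟩ := step_of_ni hC
    obtain ⟨z, hz⟩ := hg _ _ h
    obtain ⟨x', h1, -⟩ := e1 h hz
    exact ⟨_, ⟨x', rfl⟩, x, hx, x', self_mem _, h1⟩
  · rintro C hC C' hC' D hD ⟨x, hx, x', hx', h1⟩ ⟨y, hy, y', hy', h2⟩
    rw [eq_comp hC.1 hx, eq_comp hC'.1 hy]
    rw [eq_comp hD hx'] at hy'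
    obtain ⟨k, hk⟩ := mem_comp.1 hy'
    rcases le_total 0 k with h0 | h0
    · obtain ⟨z, h3, h4⟩ := T2 h1 hk h0
      obtain rfl := pinj h2 h4
      exact comp_eq h3.mem
    · obtain ⟨z, h3, h4⟩ := T2 h2 hk.symm (by omega)
      obtain rfl := pinj h1 h4
      exact (comp_eq h3.mem).symm
  · rintro C hC D hD ⟨x, hx, x', hx', h1⟩
    refine ⟨hD, ?_⟩
    obtain rfl := eq_comp hC.1 hx
    obtain rfl := eq_comp hD hx'
    have hE : HasEnd a (comp a x) ↔ HasEnd b (comp b x') := by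
      constructor
      · rintro ⟨t, ht, ht'⟩
        obtain ⟨k, hk⟩ := mem_comp.1 ht
        obtain ⟨t', h2, h3⟩ := T1 h1 hk
        refine ⟨t', h3.mem, ?_⟩
        cases e' : b t' with
        | none => rfl
        | some z =>
          obtain ⟨y, h4, -⟩ := e2 h2 e'
          simp [ht'] at h4
      · rintro ⟨t, ht, ht'⟩
        obtain ⟨k, hk⟩ := mem_comp.1 ht
        obtain ⟨y, h2, h3⟩ := T2 h1 hk (by have := end_le ht' hk.symm; omega)
        refine ⟨y, h2.mem, ?_⟩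
        cases e' : a y with
        | none => rfl
        | some z =>
          obtain ⟨z', h4⟩ := hg _ _ e'
          obtain ⟨w, h5, h6⟩ := e1 e' h4
          obtain rfl := pfun h3 h5
          simp [ht'] at h6
    refine ⟨hE, ?_, fun h => ?_, fun _ h => ?_⟩
    · refine Set.encard_le_encard_of_injOn (f := fun y => (g y).getD y) ?_ ?_
      · intro y hy
        obtain ⟨k, hk⟩ := mem_comp.1 hy
        obtain ⟨y', h2, h3⟩ := T1 h1 hk
        simpa [h2] using h3.mem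
      · intro y hy z hz e'
        obtain ⟨k, hk⟩ := mem_comp.1 hy
        obtain ⟨y', h2, -⟩ := T1 h1 hk
        obtain ⟨l, hl⟩ := mem_comp.1 hz
        obtain ⟨z', h3, -⟩ := T1 h1 hl
        simp only [h2, h3, Option.getD_some] at e'
        subst e'
        exact pinj h2 h3
    · refine encard_eq_of_per h (fun h' => h (hE.2 h')) fun k => ⟨fun hk => ?_, fun hk => ?_⟩
      · obtain ⟨y', h2, h3⟩ := T1 h1 hk
        obtain rfl := pfun h1 h2
        exact h3
      · obtain ⟨y, h2, h3⟩ := T2 h1 hk (by omega)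
        obtain rfl := pinj h1 h3
        exact h2
    · rintro ⟨s, hs, hs'⟩
      obtain ⟨k, hk⟩ := mem_comp.1 hs
      have h0 := start_le hs' hk.symm
      obtain ⟨y, hy⟩ := noStart_dm h (k := k - 1) (by omega)
      obtain ⟨y', -, h3⟩ := T1 h1 hy
      have := start_le hs' (hk.symm.trans h3)
      omega

def GoodC (a b : X ≃. X) (x y : X) (s : ℤ) : Prop :=
  s = 0 ∧ (∀ k, Dm a x k → Dm b y k) ∧ ∀ k, Dm a x k → Dm b y (k + 1) → Dm a x (k + 1)

theorem goodC {C D : Set X} (hC : C ∈ Set.range (comp a)) (hD : D ∈ Set.range (comp b))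
    (h : Rc a b C D) :
    ∃ x ∈ C, ∃ y ∈ D, ∃ s, (∀ k, W a x k x ↔ W b y k y) ∧ GoodC a b x y s := by
  obtain ⟨h1, h2, h3, h4⟩ := h
  by_cases hE : HasEnd a C
  · obtain ⟨t', ht', e'⟩ := h1.1 hE
    obtain ⟨t, ht, e⟩ := hE
    refine ⟨t, ht, t', ht', 0, fun k => by rw [end_per e, end_per e'], rfl, fun k hk => ?_,
      fun k hk hk' => hk.up ((end_dm e' _).1 hk').1 (by omega)⟩
    rw [end_dm e, ← eq_comp hC ht] at hk
    rw [end_dm e', ← eq_comp hD ht']
    exact ⟨hk.1, hk.2.trans_le h2⟩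
  · have hE' : ¬ HasEnd b D := fun h => hE (h1.2 h)
    obtain ⟨y, rfl⟩ := hD
    have hper : ∀ x ∈ C, ∀ k, W a x k x ↔ W b y k y := by
      intro x hx k
      obtain rfl := eq_comp hC hx
      rw [noEnd_per hE, noEnd_per hE', h3 hE]
    by_cases hS : HasStart a C
    · obtain ⟨s, hs, e⟩ := hS
      refine ⟨s, hs, y, self_mem y, 0, hper s hs, rfl, ?_, fun k hk _ => ?_⟩
      · rintro k ⟨z, hz⟩
        exact noEnd_dm hE' (start_le e hz)
      · exact noEnd_succ (eq_comp hC hs ▸ hE) hk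
    · obtain ⟨x, rfl⟩ := hC
      exact ⟨x, self_mem x, y, self_mem y, 0, hper x (self_mem x), rfl,
        fun k _ => all_dm (h4 hE hS) hE' k, fun k hk _ => noEnd_succ hE hk⟩

theorem half_of_inj (h : Inj (NI a) (Set.range (comp b)) (Rc a b)) : Half a b := by
  obtain ⟨f, hf, hf'⟩ := h
  obtain ⟨M, hB, hG, hM⟩ := base_of_matching (a := a) (b := b) (fun C D => C ∈ NI a ∧ D = f C)
    (GoodC a b) (by rintro C D ⟨hC, rfl⟩; exact ⟨hC.1, (hf' C hC).1⟩)
    (by
      rintro C D C' D' ⟨hC, rfl⟩ ⟨hC', rfl⟩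
      exact ⟨fun e => e ▸ rfl, fun e => hf hC hC' e⟩)
    (by rintro C D ⟨hC, rfl⟩; exact goodC hC.1 (hf' C hC).1 (hf' C hC).2)
  obtain ⟨g, hg⟩ := hB.build
  refine ⟨g, fun x y e => ?_, PEquiv.ext fun x => Option.ext fun z => ?_⟩
  · obtain ⟨p, hp, q, -, s, h⟩ := hM _ _ ⟨ni_of_step e, rfl⟩
    obtain ⟨rfl, h1, -⟩ := hG _ _ _ h
    obtain ⟨k, hk⟩ := mem_comp.1 hp
    obtain ⟨z, hz⟩ := h1 _ ⟨y, hk.symm.fwd e⟩
    exact ⟨z, (hg _ _).2 ⟨p, q, 0, _, h, hk.symm.fwd e, hz.cast (by ring)⟩⟩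
  · rw [PEquiv.trans_eq_some, PEquiv.trans_eq_some]
    constructor
    · rintro ⟨y, e, h⟩
      obtain ⟨p, q, s, k, h, h1, h2⟩ := (hg _ _).1 h
      obtain ⟨rfl, h3, -⟩ := hG _ _ _ h
      obtain ⟨w, hw⟩ := h3 _ ⟨x, h1.bwd e⟩
      exact ⟨w, (hg _ _).2 ⟨p, q, 0, _, h, h1.bwd e, hw.cast (by ring)⟩,
        ((hw.symm.trans h2).cast (by ring)).one⟩
    · rintro ⟨w, h, e⟩
      obtain ⟨p, q, s, k, h, h1, h2⟩ := (hg _ _).1 h
      obtain ⟨rfl, -, h3⟩ := hG _ _ _ h
      obtain ⟨y, hy⟩ := h3 k ⟨x, h1⟩ ⟨z, (h2.fwd e).cast (by ring)⟩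
      exact ⟨y, ((h1.symm.trans hy).cast (by ring)).one,
        (hg _ _).2 ⟨p, q, 0, _, h, hy, (h2.fwd e).cast (by ring)⟩⟩

def CLe (a b : X ≃. X) : Prop :=
  (∀ n, endless a n ≤ endless b n) ∧ double a ≤ double b ∧ ∀ n, 2 ≤ n → ending a n ≤ ending b n

theorem inj_iff_cle : Inj (NI a) (Set.range (comp b)) (Rc a b) ↔ CLe a b := by
  classical
  constructor
  · intro h
    refine ⟨fun n => h.card (fun C hC => ⟨hC.1, Or.inl hC.2.1⟩) ?_,
      h.card (fun C hC => ⟨hC.1, Or.inl hC.2.2.1⟩) ?_,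
      fun n hn => h.card (fun C hC => ⟨hC.1, Or.inr (hn.trans hC.2.2)⟩) ?_⟩
    · rintro C ⟨-, h1, h2⟩ D hD ⟨r1, -, r3, -⟩
      exact ⟨hD, fun e => h1 (r1.2 e), (r3 h1).symm.trans h2⟩
    · rintro C ⟨-, h0, h1, h2⟩ D hD ⟨r1, -, r3, r4⟩
      exact ⟨hD, r4 h1 h0, fun e => h1 (r1.2 e), (r3 h1).symm.trans h2⟩
    · rintro C ⟨-, h1, h2⟩ D hD ⟨r1, r2, -, -⟩
      exact ⟨hD, r1.1 h1, h2.trans r2⟩
  · rintro ⟨h1, h2, h3⟩
    refine Inj.glue (fun C => if HasEnd a C then none else some C.encard)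
      (fun D => if HasEnd b D then none else some D.encard) fun κ => ?_
    cases κ with
    | none =>
      refine (chainHall {C | C ∈ Set.range (comp a) ∧ HasEnd a C ∧ 2 ≤ C.encard}
        {D | D ∈ Set.range (comp b) ∧ HasEnd b D} Set.encard Set.encard fun n => ?_).mono ?_ ?_
      · refine le_trans (mk_le_mk_of_subset ?_) ((h3 (max 2 n) (le_max_left _ _)).trans
          (mk_le_mk_of_subset ?_))
        · rintro C ⟨⟨e1, e2, e3⟩, e4⟩
          exact ⟨e1, e2, max_le e3 e4⟩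
        · rintro C ⟨e1, e2, e3⟩
          exact ⟨⟨e1, e2⟩, (le_max_right _ _).trans e3⟩
      · rintro C ⟨⟨e1, e2⟩, e3⟩
        have e4 : HasEnd a C := by by_contra hc; simp [hc] at e3
        exact ⟨e1, e4, e2.resolve_left (not_not.2 e4)⟩
      · rintro C ⟨-, e3⟩ D ⟨e5, e6⟩ e7
        have e4 : HasEnd a C := by by_contra hc; simp [hc] at e3
        exact ⟨⟨e5, by simp [e6]⟩, iff_of_true e4 e6, e7, fun h => absurd e4 h,
          fun h => absurd e4 h⟩
    | some m =>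
      refine (chainHall {C | C ∈ Set.range (comp a) ∧ ¬ HasEnd a C ∧ C.encard = m}
        {D | D ∈ Set.range (comp b) ∧ ¬ HasEnd b D ∧ D.encard = m}
        (fun C => if ¬ HasStart a C ∧ m = ⊤ then 1 else 0)
        (fun D => if ¬ HasStart b D ∧ m = ⊤ then 1 else 0) fun n => ?_).mono ?_ ?_
      · rcases eq_or_ne n 0 with rfl | hn
        · refine le_trans (mk_le_mk_of_subset ?_) ((h1 m).trans (mk_le_mk_of_subset ?_))
          · exact fun C hC => hC.1
          · exact fun C hC => ⟨hC, zero_le⟩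
        · by_cases hc : n ≤ 1 ∧ m = ⊤
          · refine le_trans (mk_le_mk_of_subset ?_) (h2.trans (mk_le_mk_of_subset ?_))
            · rintro C ⟨⟨e1, e2, e3⟩, e4⟩
              refine ⟨e1, fun hs => ?_, e2, e3.trans hc.2⟩
              simp [hs, hn] at e4
            · rintro C ⟨e1, e2, e3, e4⟩
              exact ⟨⟨e1, e3, e4.trans hc.2.symm⟩, by simpa [e2, hc.2] using hc.1⟩
          · refine le_trans (le_of_eq (mk_eq_zero_iff.2 ⟨?_⟩)) zero_le
            rintro ⟨C, -, e4⟩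
            by_cases hh : ¬ HasStart a C ∧ m = ⊤
            · rw [if_pos hh] at e4
              exact hc ⟨e4, hh.2⟩
            · rw [if_neg hh] at e4
              exact hn (le_antisymm e4 zero_le)
      · rintro C ⟨⟨e1, -⟩, e3⟩
        have e4 : ¬ HasEnd a C := by intro hc; simp [hc] at e3
        exact ⟨e1, e4, by simpa [e4] using e3⟩
      · rintro C ⟨-, e3⟩ D ⟨e5, e6, e7⟩ e8
        have e4 : ¬ HasEnd a C := by intro hc; simp [hc] at e3
        have e9 : C.encard = m := by simpa [e4] using e3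
        refine ⟨⟨e5, by simp [e6, e7]⟩, iff_of_false e4 e6, (e9.trans e7.symm).le,
          fun _ => e9.trans e7.symm, fun _ hs hs' => ?_⟩
        obtain ⟨y, rfl⟩ := e5
        have := (right_top hs' e6).symm.trans e7
        simp [hs, hs', ← this] at e8

theorem cconj_iff : CConj a b ↔ CInv a b := by
  have : CConj a b ↔ Half a b ∧ Half b a := by
    rw [← half_iff, ← half_iff]
    exact ⟨fun ⟨g, hg, h, hh, e, e'⟩ => ⟨⟨g, hg, e⟩, h, hh, e'⟩,
      fun ⟨⟨g, hg, e⟩, h, hh, e'⟩ => ⟨g, hg, h, hh, e, e'⟩⟩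
  rw [this]
  constructor
  · rintro ⟨h, h'⟩
    obtain ⟨h1, h2, h3⟩ := inj_iff_cle.1 h.inj
    obtain ⟨h4, h5, h6⟩ := inj_iff_cle.1 h'.inj
    exact ⟨fun n => le_antisymm (h1 n) (h4 n), le_antisymm h2 h5,
      fun n hn => le_antisymm (h3 n hn) (h6 n hn)⟩
  · rintro ⟨h1, h2, h3⟩
    exact ⟨half_of_inj (inj_iff_cle.2 ⟨fun n => (h1 n).le, h2.le, fun n hn => (h3 n hn).le⟩),
      half_of_inj (inj_iff_cle.2 ⟨fun n => (h1 n).ge, h2.ge, fun n hn => (h3 n hn).ge⟩)⟩

end Pool.Agent.H.MP_3f621b_al
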