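import Mathlib

namespace Pool.Agent.H.MP_3f621b_al

universe u

variable {X : Type u}

/-- p-conjugacy in the monoid of all `PEquiv X X`; the product `ab` (first `a`, then `b`) is
`a.trans b`. -/
def PConj (a b : X ≃. X) : Prop := ∃ u v : X ≃. X, a = u.trans v ∧ b = v.trans u

/-- the set `P(a)`: `{0}` for `a = 0`, otherwise all `g` with `(ma)g ≠ 0` whenever `ma ≠ 0`. -/
def PP (a : X ≃. X) : Set (X ≃. X) :=
  {g | (a = ⊥ ∧ g = ⊥) ∨ (a ≠ ⊥ ∧ ∀ m : X ≃. X, m.trans a ≠ ⊥ → (m.trans a).trans g ≠ ⊥)}

/-- the set `P¹(a) = P(a) ∪ {1}`. -/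
def PP1 (a : X ≃. X) : Set (X ≃. X) := PP a ∪ {PEquiv.refl X}

/-- c-conjugacy. -/
def CConj (a b : X ≃. X) : Prop :=
  ∃ g ∈ PP1 a, ∃ h ∈ PP1 b, a.trans g = g.trans b ∧ b.trans h = h.trans a

/-- the connected component of `x` in the digraph with arcs `s → t` for `s a = t`. -/
def comp (a : X ≃. X) (x : X) : Set X := {y | Relation.EqvGen (fun s t => a s = some t) x y}

/-- `C` contains a point outside the image of `a`. -/
def HasStart (a : X ≃. X) (C : Set X) : Prop := ∃ x ∈ C, a.symm x = none

/-- `C` contains a point outside the domain of `a`. -/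
def HasEnd (a : X ≃. X) (C : Set X) : Prop := ∃ x ∈ C, a x = none

/-- the cardinal number of components of `a` with property `Q`. -/
def num (a : X ≃. X) (Q : Set X → Prop) : Cardinal.{u} :=
  Cardinal.mk {C : Set X | C ∈ Set.range (comp a) ∧ Q C}

/-- components without end having `n` points: `n`-cycles (`n` finite), right and double rays
together (`n = ⊤`). -/
def endless (a : X ≃. X) (n : ℕ∞) : Cardinal.{u} :=
  num a fun C => ¬ HasEnd a C ∧ C.encard = n

/-- double rays. -/
def double (a : X ≃. X) : Cardinal.{u} :=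
  num a fun C => ¬ HasStart a C ∧ ¬ HasEnd a C ∧ C.encard = ⊤

/-- components with an end having at least `n` points: chains with at least `n` points and left
rays. -/
def ending (a : X ≃. X) (n : ℕ∞) : Cardinal.{u} :=
  num a fun C => HasEnd a C ∧ n ≤ C.encard

/-- components with `n` points that have a start iff `s` and an end iff `e`. -/
def shape (a : X ≃. X) (s e : Prop) (n : ℕ∞) : Cardinal.{u} :=
  num a fun C => (HasStart a C ↔ s) ∧ (HasEnd a C ↔ e) ∧ C.encard = n

/-- chains (components with a start and an end, one-point chains included) whose number of points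
lies in `[i, j]`. -/
def chains (a : X ≃. X) (i j : ℕ) : Cardinal.{u} :=
  num a fun C => HasStart a C ∧ HasEnd a C ∧ (i : ℕ∞) ≤ C.encard ∧ C.encard ≤ (j : ℕ∞)

/-- the invariant condition for c-conjugacy. -/
def CInv (a b : X ≃. X) : Prop :=
  (∀ n, endless a n = endless b n) ∧ double a = double b ∧ ∀ n, 2 ≤ n → ending a n = ending b n

/-- the invariant condition for p-conjugacy. -/
def PInv (a b : X ≃. X) : Prop :=
  (∀ (s e : Prop) (n : ℕ∞), ¬ (s ∧ e) → shape a s e n = shape b s e n) ∧
    ∀ i j : ℕ, 2 ≤ i →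
      chains a i j ≤ chains b (i - 1) (j + 1) ∧ chains b i j ≤ chains a (i - 1) (j + 1)

end Pool.Agent.H.MP_3f621b_al
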