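import Pool.Agent.H.MP_3f621b_al.CPart

namespace Pool.Agent.H.MP_3f621b_al

open Cardinal

universe u

variable {X : Type u} {a b : X ≃. X}

def Rp (a b : X ≃. X) (C D : Set X) : Prop :=
  (HasStart a C ↔ HasStart b D) ∧ (HasEnd a C ↔ HasEnd b D) ∧ C.encard ≤ D.encard + 1 ∧
    D.encard ≤ C.encard + 1 ∧ (¬ HasEnd a C → C.encard = D.encard)

theorem Rp.symm {C D : Set X} (h : Rp a b C D) : Rp b a D C :=
  ⟨h.1.symm, h.2.1.symm, h.2.2.2.1, h.2.2.1, fun e => (h.2.2.2.2 fun e' => e (h.2.1.1 e')).symm⟩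

theorem encard_dom (x : X) :
    (comp a x).encard ≤ {y ∈ comp a x | ∃ z, a y = some z}.encard + 1 := by
  have h1 : {y ∈ comp a x | a y = none}.encard ≤ 1 :=
    Set.encard_le_one_iff.2 fun s t hs ht => end_uniq hs.1 ht.1 hs.2 ht.2
  refine le_trans (Set.encard_le_encard ?_) ((Set.encard_union_le _ _).trans
    (add_le_add le_rfl h1))
  intro y hy
  cases e : a y with
  | none => exact Or.inr ⟨hy, e⟩
  | some z => exact Or.inl ⟨hy, z, e⟩

theorem dom_eq {x : X} (h : ¬ HasEnd a (comp a x)) :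
    {y ∈ comp a x | ∃ z, a y = some z} = comp a x := by
  refine Set.sep_eq_self_iff_mem_true.2 fun y hy => ?_
  cases e : a y with
  | none => exact absurd ⟨y, hy, e⟩ h
  | some z => exact ⟨z, rfl⟩

theorem symm_none {g : X ≃. X} {s : X} : g.symm s = none ↔ ∀ z, g z ≠ some s := by
  constructor
  · intro h z e
    have := g.eq_some_iff.2 e
    simp [h] at this
  · intro h
    cases e : g.symm s with
    | none => rfl
    | some z => exact absurd (g.eq_some_iff.1 e) (h z)

theorem eq_none {g : X ≃. X} {s : X} : g s = none ↔ ∀ z, g s ≠ some z :=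
  Option.eq_none_iff_forall_ne_some

theorem pconj_inj {u v : X ≃. X} (ha : a = u.trans v) (hb : b = v.trans u) :
    Inj (NI a) (Set.range (comp b)) (Rp a b) := by
  have f1 : ∀ {x y}, a x = some y ↔ ∃ z, u x = some z ∧ v z = some y := by
    intro x y; rw [ha]; exact PEquiv.trans_eq_some _ _ _ _
  have f2 : ∀ {x y}, b x = some y ↔ ∃ z, v x = some z ∧ u z = some y := by
    intro x y; rw [hb]; exact PEquiv.trans_eq_some _ _ _ _
  clear ha hb
  have T1 : ∀ {x x' y k}, u x = some x' → W a x k y → 0 ≤ k →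
      ∀ y', u y = some y' → W b x' k y' := by
    intro x x' y k hx hw hk
    refine W.ind (fun k y => ∀ y', u y = some y' → W b x' k y') ?_ ?_ hw hk
    · intro y' h
      obtain rfl := pfun hx h
      exact W.refl
    · intro j y z _ ih h z' hz
      obtain ⟨w, h1, h2⟩ := f1.1 h
      exact (ih w h1).fwd (f2.2 ⟨z, h2, hz⟩)
  have T2 : ∀ {x x' w k}, u x = some x' → W b x' k w → 0 ≤ k →
      ∃ y, W a x k y ∧ u y = some w := by
    intro x x' w k hx hw hk
    refine W.ind (fun k w => ∃ y, W a x k y ∧ u y = some w) ⟨x, W.refl, hx⟩ ?_ hw hk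
    rintro j y z - ⟨y', h1, h2⟩ h3
    obtain ⟨w, h4, h5⟩ := f2.1 h3
    exact ⟨w, h1.fwd (f1.2 ⟨y, h2, h4⟩), h5⟩
  have T : ∀ {x x' y y'}, u x = some x' → u y = some y' → (y ∈ comp a x ↔ y' ∈ comp b x') := by
    intro x x' y y' hx hy
    simp only [mem_comp]
    constructor
    · rintro ⟨k, hk⟩
      rcases le_total 0 k with h0 | h0
      · exact ⟨k, T1 hx hk h0 _ hy⟩
      · exact ⟨_, (T1 hy hk.symm (by omega) _ hx).symm⟩
    · rintro ⟨k, hk⟩
      rcases le_total 0 k with h0 | h0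
      · obtain ⟨z, h1, h2⟩ := T2 hx hk h0
        obtain rfl := pinj hy h2
        exact ⟨k, h1⟩
      · obtain ⟨z, h1, h2⟩ := T2 hy hk.symm (by omega)
        obtain rfl := pinj hx h2
        exact ⟨_, h1.symm⟩
  refine (Inj.of_rel (B := Set.range (comp b))
    (N := fun C D => ∃ x ∈ C, ∃ x' ∈ D, u x = some x') ?_ ?_).mono subset_rfl ?_
  · intro C hC
    obtain ⟨x, hx, y, h⟩ := step_of_ni hC
    obtain ⟨x', h1, -⟩ := f1.1 h
    exact ⟨_, ⟨x', rfl⟩, x, hx, x', self_mem _, h1⟩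
  · rintro C hC C' hC' D hD ⟨x, hx, x', hx', h1⟩ ⟨y, hy, y', hy', h2⟩
    rw [eq_comp hC.1 hx, eq_comp hC'.1 hy]
    rw [eq_comp hD hx'] at hy'
    exact comp_eq ((T h1 h2).2 hy')
  · rintro C hC D hD ⟨x, hx, x', hx', h1⟩
    refine ⟨hD, ?_⟩
    obtain rfl := eq_comp hC.1 hx
    obtain rfl := eq_comp hD hx'
    have sa : ∀ {y z}, y ∈ comp a x → a y = some z → z ∈ comp a x := fun hy e => by
      obtain ⟨k, hk⟩ := mem_comp.1 hy
      exact (hk.fwd e).mem
    have sa' : ∀ {y z}, y ∈ comp a x → a z = some y → z ∈ comp a x := fun hy e => by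
      obtain ⟨k, hk⟩ := mem_comp.1 hy
      exact (hk.bwd e).mem
    have sb : ∀ {y z}, y ∈ comp b x' → b y = some z → z ∈ comp b x' := fun hy e => by
      obtain ⟨k, hk⟩ := mem_comp.1 hy
      exact (hk.fwd e).mem
    have sb' : ∀ {y z}, y ∈ comp b x' → b z = some y → z ∈ comp b x' := fun hy e => by
      obtain ⟨k, hk⟩ := mem_comp.1 hy
      exact (hk.bwd e).mem
    have hE : HasEnd a (comp a x) ↔ HasEnd b (comp b x') := by
      constructor
      · rintro ⟨t, ht, ht'⟩
        cases e : u t with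
        | some t' =>
          refine ⟨t', (T h1 e).1 ht, eq_none.2 fun z hz => ?_⟩
          obtain ⟨w, h2, -⟩ := f2.1 hz
          exact eq_none.1 ht' w (f1.2 ⟨t', e, h2⟩)
        | none =>
          obtain ⟨k, hk⟩ := mem_comp.1 ht
          have h0 := end_le ht' hk.symm
          have hk0 : k ≠ 0 := by
            rintro rfl
            obtain rfl := hk.zero
            simp [h1] at e
          obtain ⟨y, h2, h3⟩ := hk.last (by omega)
          obtain ⟨y', h4, h5⟩ := f1.1 h3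
          refine ⟨y', (T h1 h4).1 h2.mem, eq_none.2 fun z hz => ?_⟩
          obtain ⟨w, h6, h7⟩ := f2.1 hz
          obtain rfl := pfun h5 h6
          simp [e] at h7
      · rintro ⟨t, ht, ht'⟩
        obtain ⟨k, hk⟩ := mem_comp.1 ht
        obtain ⟨y, h2, h3⟩ := T2 h1 hk (by have := end_le ht' hk.symm; omega)
        cases e : a y with
        | none => exact ⟨y, h2.mem, e⟩
        | some z =>
          refine ⟨z, sa h2.mem e, eq_none.2 fun w hw => ?_⟩
          obtain ⟨t1, h4, h5⟩ := f1.1 e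
          obtain rfl := pfun h3 h4
          obtain ⟨w1, h6, -⟩ := f1.1 hw
          exact eq_none.1 ht' w1 (f2.2 ⟨z, h5, h6⟩)
    have hS : HasStart a (comp a x) ↔ HasStart b (comp b x') := by
      constructor
      · rintro ⟨s, hs, hs'⟩
        cases e : u s with
        | some s' =>
          have hm := (T h1 e).1 hs
          cases e' : b.symm s' with
          | none => exact ⟨s', hm, e'⟩
          | some w =>
            have e2 := b.eq_some_iff.1 e'
            refine ⟨w, sb' hm e2, symm_none.2 fun w0 h0 => ?_⟩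
            obtain ⟨z, h2, h3⟩ := f2.1 e2
            obtain rfl := pinj e h3
            obtain ⟨z0, -, h5⟩ := f2.1 h0
            exact symm_none.1 hs' z0 (f1.2 ⟨w, h5, h2⟩)
        | none =>
          obtain ⟨k, hk⟩ := mem_comp.1 hs
          have h0 := start_le hs' hk.symm
          have h2 : a s = none := eq_none.2 fun z hz => by
            obtain ⟨w, h, -⟩ := f1.1 hz
            simp [e] at h
          have h3 := end_le h2 hk.symm
          obtain rfl := (hk.cast (by omega : k = 0)).zero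
          simp [h1] at e
      · rintro ⟨s, hs, hs'⟩
        have key : ∀ z0 ∈ comp a x, u z0 = some s → HasStart a (comp a x) := by
          intro z0 hz0 e
          refine ⟨z0, hz0, symm_none.2 fun z1 h0 => ?_⟩
          obtain ⟨w1, -, h3⟩ := f1.1 h0
          exact symm_none.1 hs' w1 (f2.2 ⟨z0, h3, e⟩)
        obtain ⟨k, hk⟩ := mem_comp.1 hs
        have h0 := start_le hs' hk.symm
        rcases eq_or_lt_of_le h0 with h2 | h2
        · obtain rfl := (hk.cast (by omega : k = 0)).zero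
          exact key x (self_mem x) h1
        · obtain ⟨w, h3, -⟩ := hk.symm.first h2
          obtain ⟨z, h4, h5⟩ := f2.1 h3
          have hz := (T h1 h5).2 (sb hs h3)
          cases e : a.symm z with
          | none => exact ⟨z, hz, e⟩
          | some z0 =>
            have e2 := a.eq_some_iff.1 e
            obtain ⟨w0, h6, h7⟩ := f1.1 e2
            obtain rfl := pinj h4 h7
            exact key z0 (sa' hz e2) h6
    have le1 : {y ∈ comp a x | ∃ z, a y = some z}.encard ≤ (comp b x').encard := by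
      refine Set.encard_le_encard_of_injOn (f := fun y => (u y).getD y) ?_ ?_
      · rintro y ⟨hy, z, hz⟩
        obtain ⟨y', h2, -⟩ := f1.1 hz
        simpa [h2] using (T h1 h2).1 hy
      · rintro y ⟨-, z, hz⟩ w ⟨-, z', hz'⟩ e
        obtain ⟨y', h2, -⟩ := f1.1 hz
        obtain ⟨w', h3, -⟩ := f1.1 hz'
        simp only [h2, h3, Option.getD_some] at e
        subst e
        exact pinj h2 h3
    have le2 : {y ∈ comp b x' | ∃ z, b y = some z}.encard ≤ (comp a x).encard := by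
      refine Set.encard_le_encard_of_injOn (f := fun y => (v y).getD y) ?_ ?_
      · rintro y ⟨hy, z, hz⟩
        obtain ⟨y', h2, h3⟩ := f2.1 hz
        simpa [h2] using (T h1 h3).2 (sb hy hz)
      · rintro y ⟨-, z, hz⟩ w ⟨-, z', hz'⟩ e
        obtain ⟨y', h2, -⟩ := f2.1 hz
        obtain ⟨w', h3, -⟩ := f2.1 hz'
        simp only [h2, h3, Option.getD_some] at e
        subst e
        exact pinj h2 h3
    refine ⟨hS, hE, (encard_dom x).trans (add_le_add le1 le_rfl),
      (encard_dom x').trans (add_le_add le2 le_rfl), fun h => ?_⟩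
    rw [dom_eq h] at le1
    rw [dom_eq fun e => h (hE.2 e)] at le2
    exact le_antisymm le1 le2

def GoodP (a b : X ≃. X) (x y : X) (s : ℤ) : Prop :=
  (∀ k, Dm a x k → Dm a x (k + 1) → Dm b y (k + s)) ∧
    ∀ k, Dm b y k → Dm b y (k + 1) → Dm a x (k + (1 - s))

theorem good_end {t t' : X} (e : a t = none) (e' : b t' = none)
    (h : (comp a t).encard ≤ (comp b t').encard) (h' : (comp b t').encard ≤ (comp a t).encard + 1) :
    GoodP a b t t' 0 := by
  constructor
  · intro k hk _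
    rw [end_dm e] at hk
    rw [add_zero, end_dm e']
    exact ⟨hk.1, hk.2.trans_le h⟩
  · intro k hk hk'
    rw [end_dm e'] at hk hk'
    rw [sub_zero, end_dm e]
    refine ⟨hk'.1, ?_⟩
    have h1 := hk.2.trans_le h'
    have h0 := hk'.1
    have h2 : (-k).toNat = (-(k + 1)).toNat + 1 := by omega
    rw [h2, Nat.cast_add, Nat.cast_one] at h1
    exact lt_of_add_lt_add_right h1

theorem goodP {C D : Set X} (hC : C ∈ Set.range (comp a)) (hD : D ∈ Set.range (comp b))
    (h : Rp a b C D) :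
    ∃ x ∈ C, ∃ y ∈ D, ∃ s, (∀ k, W a x k x ↔ W b y k y) ∧ GoodP a b x y s := by
  obtain ⟨h0, h1, h2, h3, h4⟩ := h
  by_cases hE : HasEnd a C
  · obtain ⟨t', ht', e'⟩ := h1.1 hE
    obtain ⟨t, ht, e⟩ := hE
    obtain rfl := eq_comp hC ht
    obtain rfl := eq_comp hD ht'
    rcases le_total (comp a t).encard (comp b t').encard with hl | hl
    · exact ⟨t, ht, t', ht', 0, fun k => by rw [end_per e, end_per e'], good_end e e' hl h3⟩
    · obtain ⟨g1, g2⟩ := good_end e' e hl h2
      exact ⟨t, ht, t', ht', 1, fun k => by rw [end_per e, end_per e'],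
        fun k hk hk' => by simpa using g2 k hk hk', fun k hk hk' => by simpa using g1 k hk hk'⟩
  · have hE' : ¬ HasEnd b D := fun h => hE (h1.2 h)
    have hper : ∀ x ∈ C, ∀ y ∈ D, ∀ k, W a x k x ↔ W b y k y := by
      intro x hx y hy k
      obtain rfl := eq_comp hC hx
      obtain rfl := eq_comp hD hy
      rw [noEnd_per hE, noEnd_per hE', h4 hE]
    by_cases hS : HasStart a C
    · obtain ⟨s', hs', e'⟩ := h0.1 hS
      obtain ⟨s, hs, e⟩ := hS
      refine ⟨s, hs, s', hs', 0, hper s hs s' hs', ?_, ?_⟩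
      · rintro k ⟨z, hz⟩ -
        exact noEnd_dm (eq_comp hD hs' ▸ hE') (by have := start_le e hz; omega)
      · rintro k ⟨z, hz⟩ -
        exact noEnd_dm (eq_comp hC hs ▸ hE) (by have := start_le e' hz; omega)
    · obtain ⟨x, rfl⟩ := hC
      obtain ⟨y, rfl⟩ := hD
      exact ⟨x, self_mem x, y, self_mem y, 0, hper x (self_mem x) y (self_mem y),
        fun k _ _ => all_dm (fun h => hS (h0.2 h)) hE' _, fun k _ _ => all_dm hS hE _⟩

theorem Base.swap {M : X → X → ℤ → Prop} (h : Base a b M) :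
    Base b a fun y x s => M x y (1 - s) := by
  constructor
  · intro y x s y' x' s' h1 h2 hc
    obtain ⟨e1, e2, e3⟩ := h.uniq _ _ _ _ _ _ h1 h2 hc.symm
    exact ⟨e2, e1, by omega⟩
  · intro y x s h1 k
    exact (h.per _ _ _ h1 k).symm

theorem factor {M : X → X → ℤ → Prop} (hB : Base a b M) {u v : X ≃. X}
    (hu : ∀ x y, u x = some y ↔ Rel a b M x y)
    (hv : ∀ y x, v y = some x ↔ Rel b a (fun y x s => M x y (1 - s)) y x)
    (hG : ∀ x y s, M x y s → ∀ k, Dm a x k → Dm a x (k + 1) → Dm b y (k + s))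
    (hM : ∀ C ∈ NI a, ∃ x ∈ C, ∃ y s, M x y s) : a = u.trans v := by
  refine PEquiv.ext fun x => Option.ext fun y => ?_
  rw [PEquiv.trans_eq_some]
  constructor
  · intro e
    obtain ⟨p, hp, q, s, h⟩ := hM _ (ni_of_step e)
    obtain ⟨k, hk⟩ := mem_comp.1 hp
    obtain ⟨w, hw⟩ := hG _ _ _ h _ ⟨x, hk.symm⟩ ⟨y, hk.symm.fwd e⟩
    exact ⟨w, (hu _ _).2 ⟨p, q, s, _, h, hk.symm, hw⟩, (hv _ _).2 ⟨q, p, 1 - s, _,
      by simpa using h, hw, (hk.symm.fwd e).cast (by ring)⟩⟩
  · rintro ⟨w, h1, h2⟩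
    obtain ⟨p, q, s, k, h, h3, h4⟩ := (hu _ _).1 h1
    obtain ⟨q', p', s', k', h', h5, h6⟩ := (hv _ _).1 h2
    obtain ⟨rfl, rfl, rfl⟩ := hB.uniq _ _ _ _ _ _ h h' (Or.inr (h4.trans h5.symm).mem)
    have := (hB.per _ _ _ h _).2 (h4.trans h5.symm)
    exact (((h3.symm.trans this).trans h6).cast (by ring)).one

theorem pconj_of_inj (h : Inj (NI a) (Set.range (comp b)) (Rp a b))
    (h' : Inj (NI b) (Set.range (comp a)) (Rp b a)) : PConj a b := by
  obtain ⟨N, h1, h2, h3, h4⟩ := matching h (h'.mono subset_rfl fun x _ y hy e => ⟨hy, e.symm⟩)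
    (fun C hC => hC.1) fun C hC => hC.1
  obtain ⟨M, hB, hG, hM⟩ := base_of_matching (a := a) (b := b) N (GoodP a b)
    (fun C D h => ⟨(h1 C D h).1, (h1 C D h).2.1⟩) h2
    fun C D h => goodP (h1 C D h).1 (h1 C D h).2.1 (h1 C D h).2.2
  obtain ⟨u, hu⟩ := hB.build
  obtain ⟨v, hv⟩ := hB.swap.build
  refine ⟨u, v, factor hB hu hv (fun x y s h => (hG x y s h).1) fun C hC => ?_,
    factor hB.swap hv (by simpa using hu) (fun y x s h => by simpa using (hG _ _ _ h).2)
      fun D hD => ?_⟩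
  · obtain ⟨D, h⟩ := h3 C hC
    obtain ⟨x, hx, y, -, s, h⟩ := hM C D h
    exact ⟨x, hx, y, s, h⟩
  · obtain ⟨C, h⟩ := h4 D hD
    obtain ⟨x, -, y, hy, s, h⟩ := hM C D h
    exact ⟨y, hy, x, 1 - s, by simpa using h⟩

def PLe (a b : X ≃. X) : Prop :=
  (∀ (s e : Prop) (n : ℕ∞), ¬ (s ∧ e) → shape a s e n ≤ shape b s e n) ∧
    ∀ i j : ℕ, 2 ≤ i → chains a i j ≤ chains b (i - 1) (j + 1)

theorem inj_iff_ple : Inj (NI a) (Set.range (comp b)) (Rp a b) ↔ PLe a b := by
  classical
  constructor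
  · intro h
    refine ⟨fun s e n hse => h.card ?_ ?_, fun i j hi => h.card ?_ ?_⟩
    · rintro C ⟨⟨x, rfl⟩, h1, h2, -⟩
      refine ⟨⟨x, rfl⟩, ?_⟩
      by_cases hE : HasEnd a (comp a x)
      · rw [left_top (fun hs => hse ⟨h1.1 hs, h2.1 hE⟩) hE]
        exact Or.inr le_top
      · exact Or.inl hE
    · rintro C ⟨⟨x, rfl⟩, h1, h2, h3⟩ D ⟨y, rfl⟩ ⟨r1, r2, -, -, r5⟩
      refine ⟨⟨y, rfl⟩, r1.symm.trans h1, r2.symm.trans h2, ?_⟩
      by_cases hE : HasEnd a (comp a x)
      · have hs : ¬ HasStart a (comp a x) := fun hs => hse ⟨h1.1 hs, h2.1 hE⟩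
        rw [← h3, left_top hs hE, left_top (fun e => hs (r1.2 e)) (r2.1 hE)]
      · exact (r5 hE).symm.trans h3
    · rintro C ⟨hC, -, -, h3, -⟩
      exact ⟨hC, Or.inr (le_trans (by exact_mod_cast hi) h3)⟩
    · rintro C ⟨-, h1, h2, h3, h4⟩ D hD ⟨r1, r2, r3, r4, -⟩
      refine ⟨hD, r1.1 h1, r2.1 h2, ?_, ?_⟩
      · have := h3.trans r3
        rw [ENat.natCast_sub]
        exact tsub_le_iff_right.2 this
      · push_cast
        exact r4.trans (add_le_add h4 le_rfl)
  · rintro ⟨h1, h2⟩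
    refine Inj.glue
      (fun C => (HasStart a C, HasEnd a C, if HasStart a C ∧ HasEnd a C then 0 else C.encard))
      (fun D => (HasStart b D, HasEnd b D, if HasStart b D ∧ HasEnd b D then 0 else D.encard)) ?_
    rintro ⟨s, e, n⟩
    by_cases hse : s ∧ e
    · have hfa : ∀ {a : X ≃. X} {C : Set X}, C ∈ Set.range (comp a) → HasStart a C → HasEnd a C →
          ((C.encard.toNat : ℕ) : ℕ∞) = C.encard := by
        rintro a _ ⟨x, rfl⟩ e1 e2
        exact ENat.natCast_toNat (chain_fin e1 e2)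
      refine (intervalHall
        {C | C ∈ Set.range (comp a) ∧ HasStart a C ∧ HasEnd a C ∧ 2 ≤ C.encard}
        {D | D ∈ Set.range (comp b) ∧ HasStart b D ∧ HasEnd b D}
        (fun C => C.encard.toNat) (fun D => D.encard.toNat) ?_ fun i j hi => ?_).mono ?_ ?_
      · rintro C ⟨e0, e1, e2, e3⟩
        rw [← hfa e0 e1 e2] at e3
        exact_mod_cast e3
      · refine le_trans (mk_le_mk_of_subset ?_) ((h2 i j hi).trans (mk_le_mk_of_subset ?_))
        · rintro C ⟨⟨e0, e1, e2, -⟩, e4, e5⟩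
          refine ⟨e0, e1, e2, ?_, ?_⟩ <;> rw [← hfa e0 e1 e2]
          exacts [by exact_mod_cast e4, by exact_mod_cast e5]
        · rintro C ⟨e0, e1, e2, e4, e5⟩
          rw [← hfa e0 e1 e2] at e4 e5
          exact ⟨⟨e0, e1, e2⟩, by exact_mod_cast e4, by exact_mod_cast e5⟩
      · rintro C ⟨⟨e0, e1⟩, e2⟩
        simp only [Prod.mk.injEq] at e2
        have e3 : HasEnd a C := e2.2.1 ▸ hse.2
        exact ⟨e0, e2.1 ▸ hse.1, e3, e1.resolve_left (not_not.2 e3)⟩
      · rintro C ⟨⟨e0, -⟩, e2⟩ D ⟨d0, d1, d2⟩ ⟨n1, n2⟩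
        simp only [Prod.mk.injEq] at e2
        have e3 : HasEnd a C := e2.2.1 ▸ hse.2
        have e4 : HasStart a C := e2.1 ▸ hse.1
        refine ⟨⟨d0, ?_⟩, iff_of_true e4 d1, iff_of_true e3 d2, ?_, ?_, fun h => absurd e3 h⟩
        · simp only [Prod.mk.injEq]
          exact ⟨propext (iff_of_true d1 hse.1), propext (iff_of_true d2 hse.2),
            by rw [← e2.2.2, if_pos ⟨d1, d2⟩, if_pos ⟨e4, e3⟩]⟩
        · rw [← hfa e0 e4 e3, ← hfa d0 d1 d2]
          exact_mod_cast n1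
        · rw [← hfa e0 e4 e3, ← hfa d0 d1 d2]
          exact_mod_cast n2
    · refine (Inj.of_card (h1 s e n hse)).mono ?_ ?_
      · rintro C ⟨⟨e0, -⟩, e2⟩
        simp only [Prod.mk.injEq] at e2
        obtain ⟨rfl, rfl, e3⟩ := e2
        exact ⟨e0, Iff.rfl, Iff.rfl, by rwa [if_neg hse] at e3⟩
      · rintro C ⟨-, e2⟩ D ⟨d0, d1, d2, d3⟩ -
        simp only [Prod.mk.injEq] at e2
        obtain ⟨rfl, rfl, e3⟩ := e2
        rw [if_neg hse] at e3
        have : C.encard = D.encard := e3.trans d3.symm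
        refine ⟨⟨d0, ?_⟩, d1.symm, d2.symm, this ▸ le_self_add, this ▸ le_self_add, fun _ => this⟩
        simp only [Prod.mk.injEq]
        exact ⟨propext d1, propext d2,
          by rw [if_neg fun h => hse ⟨d1.1 h.1, d2.1 h.2⟩, d3]⟩

theorem pconj_iff : PConj a b ↔ PInv a b := by
  constructor
  · rintro ⟨u, v, ha, hb⟩
    obtain ⟨h1, h2⟩ := inj_iff_ple.1 (pconj_inj ha hb)
    obtain ⟨h3, h4⟩ := inj_iff_ple.1 (pconj_inj hb ha)
    exact ⟨fun s e n h => le_antisymm (h1 s e n h) (h3 s e n h),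
      fun i j hi => ⟨h2 i j hi, h4 i j hi⟩⟩
  · rintro ⟨h1, h2⟩
    exact pconj_of_inj (inj_iff_ple.2 ⟨fun s e n h => (h1 s e n h).le, fun i j hi => (h2 i j hi).1⟩)
      (inj_iff_ple.2 ⟨fun s e n h => (h1 s e n h).ge, fun i j hi => (h2 i j hi).2⟩)

end Pool.Agent.H.MP_3f621b_al
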