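import Pool.Agent.H.MP_3f621b_al.Defs

namespace Pool.Agent.H.MP_3f621b_al

universe u

variable {X : Type u} {a : X ≃. X}

inductive W (a : X ≃. X) (x : X) : ℤ → X → Prop
  | refl : W a x 0 x
  | fwd {k y z} : W a x k y → a y = some z → W a x (k + 1) z
  | bwd {k y z} : W a x k y → a z = some y → W a x (k - 1) z

theorem W.cast {x y : X} {k l : ℤ} (h : W a x k y) (e : k = l) : W a x l y := e ▸ h

theorem W.trans {x y z : X} {k l : ℤ} (h : W a x k y) (h' : W a y l z) : W a x (k + l) z := by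
  induction h' with
  | refl => simpa using h
  | fwd _ e ih => exact (ih.fwd e).cast (by ring)
  | bwd _ e ih => exact (ih.bwd e).cast (by ring)

theorem W.symm {x y : X} {k : ℤ} (h : W a x k y) : W a y (-k) x := by
  induction h with
  | refl => simpa using W.refl
  | fwd _ e ih => exact ((W.refl.bwd e).trans ih).cast (by ring)
  | bwd _ e ih => exact ((W.refl.fwd e).trans ih).cast (by ring)

theorem pinj {g : X ≃. X} {x y z : X} (h : g x = some z) (h' : g y = some z) : x = y :=
  g.inj (Option.mem_def.2 h) (Option.mem_def.2 h')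

theorem pfun {g : X ≃. X} {x y z : X} (h : g x = some y) (h' : g x = some z) : y = z :=
  Option.some.inj (h.symm.trans h')

def F (a : X ≃. X) : ℕ → X → X → Prop
  | 0, x, y => x = y
  | n + 1, x, y => ∃ z, F a n x z ∧ a z = some y

theorem F.front {n : ℕ} : ∀ {x y : X}, F a (n + 1) x y ↔ ∃ z, a x = some z ∧ F a n z y := by
  induction n with
  | zero =>
    intro x y
    constructor
    · rintro ⟨z, h, e⟩
      obtain rfl : x = z := h
      exact ⟨y, e, rfl⟩
    · rintro ⟨z, e, h⟩
      obtain rfl : z = y := h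
      exact ⟨x, rfl, e⟩
  | succ n ih =>
    intro x y
    constructor
    · rintro ⟨z, h, e⟩
      obtain ⟨w, e', h'⟩ := ih.1 h
      exact ⟨w, e', z, h', e⟩
    · rintro ⟨w, e', z, h', e⟩
      exact ⟨z, ih.2 ⟨w, e', h'⟩, e⟩

theorem F.w {n : ℕ} : ∀ {x y : X}, F a n x y → W a x n y := by
  induction n with
  | zero => intro x y h; obtain rfl : x = y := h; exact W.refl
  | succ n ih => rintro x y ⟨z, h, e⟩; exact ((ih h).fwd e).cast (by push_cast; ring)

theorem W.nf {x y : X} {k : ℤ} (h : W a x k y) :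
    (∃ n : ℕ, k = n ∧ F a n x y) ∨ ∃ n : ℕ, k = -n ∧ F a n y x := by
  induction h with
  | refl => exact Or.inl ⟨0, rfl, rfl⟩
  | @fwd k y z _ e ih =>
    rcases ih with ⟨n, rfl, h⟩ | ⟨n, rfl, h⟩
    · exact Or.inl ⟨n + 1, by push_cast; ring, y, h, e⟩
    · cases n with
      | zero =>
        obtain rfl : y = x := h
        exact Or.inl ⟨1, by simp, y, rfl, e⟩
      | succ n =>
        obtain ⟨w, e', h'⟩ := F.front.1 h
        obtain rfl := pfun e e'
        exact Or.inr ⟨n, by push_cast; ring, h'⟩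
  | @bwd k y z _ e ih =>
    rcases ih with ⟨n, rfl, h⟩ | ⟨n, rfl, h⟩
    · cases n with
      | zero =>
        obtain rfl : x = y := h
        exact Or.inr ⟨1, by simp, z, rfl, e⟩
      | succ n =>
        obtain ⟨w, h', e'⟩ := h
        obtain rfl := pinj e e'
        exact Or.inl ⟨n, by push_cast; ring, h'⟩
    · exact Or.inr ⟨n + 1, by push_cast; ring, F.front.2 ⟨y, e, h⟩⟩

theorem W.toF {x y : X} {n : ℕ} (h : W a x n y) : F a n x y := by
  rcases h.nf with ⟨m, e, h⟩ | ⟨m, e, h⟩
  · obtain rfl : n = m := by omega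
    exact h
  · obtain rfl : n = 0 := by omega
    obtain rfl : m = 0 := by omega
    exact (show y = x from h).symm

theorem W.zero {x y : X} (h : W a x 0 y) : x = y := W.toF (n := 0) h

theorem W.uniq {x y z : X} {k : ℤ} (h : W a x k y) (h' : W a x k z) : y = z :=
  ((h.symm.trans h').cast (by ring)).zero

theorem W.last {x y : X} {k : ℤ} (h : W a x k y) (hk : 0 < k) :
    ∃ z, W a x (k - 1) z ∧ a z = some y := by
  obtain ⟨n, rfl⟩ : ∃ n : ℕ, k = ((n + 1 : ℕ) : ℤ) := ⟨(k - 1).toNat, by omega⟩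
  obtain ⟨z, h', e⟩ := h.toF
  exact ⟨z, h'.w.cast (by push_cast; ring), e⟩

theorem W.first {x y : X} {k : ℤ} (h : W a x k y) (hk : 0 < k) :
    ∃ z, a x = some z ∧ W a z (k - 1) y := by
  obtain ⟨n, rfl⟩ : ∃ n : ℕ, k = ((n + 1 : ℕ) : ℤ) := ⟨(k - 1).toNat, by omega⟩
  obtain ⟨z, e, h'⟩ := F.front.1 h.toF
  exact ⟨z, e, h'.w.cast (by push_cast; ring)⟩

theorem W.one {x y : X} (h : W a x 1 y) : a x = some y := by
  obtain ⟨z, e, h'⟩ := h.first one_pos
  obtain rfl := W.zero h'
  exact e

theorem W.ind {x : X} (P : ℤ → X → Prop) (h0 : P 0 x)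
    (hs : ∀ j y z, W a x j y → P j y → a y = some z → P (j + 1) z) {k : ℤ} {y : X}
    (h : W a x k y) (hk : 0 ≤ k) : P k y := by
  obtain ⟨n, rfl⟩ := Int.eq_ofNat_of_zero_le hk
  clear hk
  induction n generalizing y with
  | zero => obtain rfl := W.zero h; exact h0
  | succ n ih =>
    obtain ⟨z, h', e⟩ := h.toF
    have := hs _ _ _ h'.w (ih h'.w) e
    simpa using this

theorem mem_comp {x y : X} : y ∈ comp a x ↔ ∃ k, W a x k y := by
  constructor
  · intro h
    have h' : Relation.EqvGen (fun s t => a s = some t) x y := h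
    clear h
    induction h' with
    | rel _ _ e => exact ⟨_, W.refl.fwd e⟩
    | refl => exact ⟨_, W.refl⟩
    | symm _ _ _ ih => obtain ⟨k, h⟩ := ih; exact ⟨_, h.symm⟩
    | trans _ _ _ _ _ ih ih' =>
      obtain ⟨k, h⟩ := ih
      obtain ⟨l, h'⟩ := ih'
      exact ⟨_, h.trans h'⟩
  · rintro ⟨k, h⟩
    show Relation.EqvGen (fun s t => a s = some t) x y
    induction h with
    | refl => exact .refl _
    | fwd _ e ih => exact .trans _ _ _ ih (.rel _ _ e)
    | bwd _ e ih => exact .trans _ _ _ ih (.symm _ _ (.rel _ _ e))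

theorem self_mem (x : X) : x ∈ comp a x := mem_comp.2 ⟨0, W.refl⟩

theorem W.mem {x y : X} {k : ℤ} (h : W a x k y) : y ∈ comp a x := mem_comp.2 ⟨k, h⟩

theorem comp_eq {x y : X} (h : y ∈ comp a x) : comp a x = comp a y := by
  obtain ⟨k, h⟩ := mem_comp.1 h
  ext z
  simp only [mem_comp]
  exact ⟨fun ⟨l, h'⟩ => ⟨_, h.symm.trans h'⟩, fun ⟨l, h'⟩ => ⟨_, h.trans h'⟩⟩

theorem eq_comp {C : Set X} (hC : C ∈ Set.range (comp a)) {x : X} (hx : x ∈ C) :
    C = comp a x := by
  obtain ⟨y, rfl⟩ := hC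
  exact comp_eq hx

def Dm (a : X ≃. X) (x : X) (k : ℤ) : Prop := ∃ y, W a x k y

theorem Dm.down {x : X} {k j : ℤ} (h : Dm a x k) (h0 : 0 ≤ j) (hj : j ≤ k) : Dm a x j := by
  obtain ⟨n, rfl⟩ : ∃ n : ℕ, k = j + n := ⟨(k - j).toNat, by omega⟩
  clear hj
  induction n with
  | zero => simpa using h
  | succ n ih =>
    obtain ⟨y, h⟩ := h
    obtain ⟨z, h', -⟩ := h.last (by push_cast; omega)
    exact ih ⟨z, h'.cast (by push_cast; ring)⟩

theorem Dm.up {x : X} {k j : ℤ} (h : Dm a x k) (h0 : j ≤ 0) (hj : k ≤ j) : Dm a x j := by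
  obtain ⟨y, h⟩ := h
  obtain ⟨z, h'⟩ := Dm.down (j := j - k) ⟨x, h.symm⟩ (by omega) (by omega)
  exact ⟨z, (h.trans h').cast (by ring)⟩

theorem end_le {t y : X} {k : ℤ} (ht : a t = none) (h : W a t k y) : k ≤ 0 := by
  by_contra hk
  obtain ⟨z, e, -⟩ := h.first (by omega)
  simp [ht] at e

theorem start_le {s y : X} {k : ℤ} (hs : a.symm s = none) (h : W a s k y) : 0 ≤ k := by
  by_contra hk
  obtain ⟨z, -, e⟩ := h.symm.last (by omega)
  have := a.eq_some_iff.2 e
  simp [hs] at this

theorem end_per {t : X} {k : ℤ} (ht : a t = none) : W a t k t ↔ k = 0 :=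
  ⟨fun h => by have := end_le ht h; have := end_le ht h.symm; omega, fun h => h ▸ W.refl⟩

theorem end_uniq {x t t' : X} (h : t ∈ comp a x) (h' : t' ∈ comp a x) (ht : a t = none)
    (ht' : a t' = none) : t = t' := by
  rw [comp_eq h] at h'
  obtain ⟨k, hk⟩ := mem_comp.1 h'
  have := end_le ht hk
  have := end_le ht' hk.symm
  exact (hk.cast (by omega)).zero

theorem noEnd_succ {x : X} (h : ¬ HasEnd a (comp a x)) {k : ℤ} (hk : Dm a x k) :
    Dm a x (k + 1) := by
  obtain ⟨y, hy⟩ := hk
  cases e : a y with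
  | none => exact absurd ⟨y, hy.mem, e⟩ h
  | some z => exact ⟨z, hy.fwd e⟩

theorem noEnd_dm {x : X} (h : ¬ HasEnd a (comp a x)) {k : ℤ} (hk : 0 ≤ k) : Dm a x k := by
  obtain ⟨n, rfl⟩ := Int.eq_ofNat_of_zero_le hk
  clear hk
  induction n with
  | zero => exact ⟨x, W.refl⟩
  | succ n ih => simpa using noEnd_succ h ih

theorem noStart_dm {x : X} (h : ¬ HasStart a (comp a x)) {k : ℤ} (hk : k ≤ 0) : Dm a x k := by
  obtain ⟨n, rfl⟩ : ∃ n : ℕ, k = -n := ⟨(-k).toNat, by omega⟩
  clear hk
  induction n with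
  | zero => exact ⟨x, W.refl⟩
  | succ n ih =>
    obtain ⟨y, hy⟩ := ih
    cases e : a.symm y with
    | none => exact absurd ⟨y, hy.mem, e⟩ h
    | some z => exact ⟨z, (hy.bwd (a.eq_some_iff.1 e)).cast (by push_cast; ring)⟩

theorem all_dm {x : X} (h : ¬ HasStart a (comp a x)) (h' : ¬ HasEnd a (comp a x)) (k : ℤ) :
    Dm a x k := by
  rcases le_total 0 k with hk | hk
  exacts [noEnd_dm h' hk, noStart_dm h hk]

open Classical in
noncomputable def pt (a : X ≃. X) (x : X) (k : ℤ) : X := if h : Dm a x k then h.choose else x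

theorem pt_spec {x : X} {k : ℤ} (h : Dm a x k) : W a x k (pt a x k) := by
  unfold pt
  rw [dif_pos h]
  exact h.choose_spec

theorem encard_Iio (n : ℕ) : (Set.Iio n).encard = n := by
  rw [← Finset.coe_range, Set.encard_coe_eq_coe_finsetCard, Finset.card_range]

theorem end_dm_nat {t : X} (ht : a t = none) (n : ℕ) :
    Dm a t (-n) ↔ (n : ℕ∞) < (comp a t).encard := by
  constructor
  · intro h
    have hd : ∀ i : ℕ, i < n + 1 → Dm a t (-i) := fun i hi => h.up (by omega) (by omega)
    have : (Set.Iio (n + 1)).encard ≤ (comp a t).encard := by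
      refine Set.encard_le_encard_of_injOn (f := fun i : ℕ => pt a t (-i))
        (fun i hi => (pt_spec (hd i hi)).mem) ?_
      intro i hi j hj e
      have h1 := pt_spec (hd i hi)
      have h2 := pt_spec (hd j hj)
      simp only at e
      rw [e] at h1
      have := (end_per ht).1 (h1.trans h2.symm)
      omega
    rw [encard_Iio] at this
    exact lt_of_lt_of_le (by exact_mod_cast Nat.lt_succ_self n) this
  · intro h
    by_contra hn
    have : comp a t ⊆ (fun i : ℕ => pt a t (-i)) '' Set.Iio n := by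
      intro y hy
      obtain ⟨k, hk⟩ := mem_comp.1 hy
      have h0 := end_le ht hk
      obtain ⟨m, rfl⟩ : ∃ m : ℕ, k = -m := ⟨(-k).toNat, by omega⟩
      refine ⟨m, ?_, (pt_spec ⟨y, hk⟩).uniq hk⟩
      by_contra hm
      exact hn (Dm.up ⟨y, hk⟩ (by omega) (by simp at hm; omega))
    have h2 := (Set.encard_le_encard this).trans (Set.encard_image_le _ _)
    rw [encard_Iio] at h2
    exact absurd h (not_lt.2 h2)

theorem end_dm {t : X} (ht : a t = none) (k : ℤ) :
    Dm a t k ↔ k ≤ 0 ∧ (((-k).toNat : ℕ) : ℕ∞) < (comp a t).encard := by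
  constructor
  · rintro ⟨y, h⟩
    have h0 := end_le ht h
    exact ⟨h0, (end_dm_nat ht _).1 ⟨y, h.cast (by omega)⟩⟩
  · rintro ⟨h0, h⟩
    obtain ⟨y, h⟩ := (end_dm_nat ht _).2 h
    exact ⟨y, h.cast (by omega)⟩

theorem left_top {x : X} (h : ¬ HasStart a (comp a x)) (h' : HasEnd a (comp a x)) :
    (comp a x).encard = ⊤ := by
  obtain ⟨t, hx, ht⟩ := h'
  rw [comp_eq hx] at h ⊢
  refine ENat.eq_top_iff_forall_gt.2 fun n => ?_
  exact (end_dm_nat ht n).1 (noStart_dm h (by omega))

theorem chain_fin {x : X} (h : HasStart a (comp a x)) (h' : HasEnd a (comp a x)) :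
    (comp a x).encard ≠ ⊤ := by
  obtain ⟨t, hx, ht⟩ := h'
  rw [comp_eq hx] at h ⊢
  obtain ⟨s, hs, hs'⟩ := h
  obtain ⟨k, hk⟩ := mem_comp.1 hs
  intro e
  have h0 := end_le ht hk
  obtain ⟨y, hy⟩ := (end_dm ht (k - 1)).2 ⟨by omega, by rw [e]; exact ENat.natCast_lt_top _⟩
  have := start_le hs' (hk.symm.trans hy)
  omega

theorem per_mul {x : X} {n : ℤ} (h : W a x n x) (m : ℤ) : W a x (n * m) x := by
  induction m using Int.induction_on with
  | zero => simpa using W.refl
  | succ i ih => exact (ih.trans h).cast (by ring)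
  | pred i ih => exact (ih.trans h.symm).cast (by ring)

theorem noEnd_per {x : X} (h : ¬ HasEnd a (comp a x)) (k : ℤ) :
    W a x k x ↔ (((comp a x).encard.toNat : ℕ) : ℤ) ∣ k := by
  classical
  have hp : ∀ i : ℕ, W a x i (pt a x i) := fun i => pt_spec (noEnd_dm h (by omega))
  by_cases hex : ∃ n : ℕ, 0 < n ∧ W a x n x
  · obtain ⟨hn0, hn⟩ := Nat.find_spec hex
    set n := Nat.find hex with hdef
    have hdvd : ∀ k : ℤ, W a x k x ↔ (n : ℤ) ∣ k := by
      intro k
      constructor
      · intro hk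
        have h1 : W a x (k % n) x :=
          ((per_mul hn (-(k / n))).trans hk).cast (by rw [Int.emod_def]; ring)
        have h2 : 0 ≤ k % n := Int.emod_nonneg _ (by omega)
        have h3 : k % n < n := Int.emod_lt_of_pos _ (by omega)
        by_contra hd
        have h4 : k % n ≠ 0 := fun e => hd (Int.dvd_of_emod_eq_zero e)
        exact Nat.find_min hex (m := (k % n).toNat) (by omega) ⟨by omega, h1.cast (by omega)⟩
      · rintro ⟨m, rfl⟩
        exact per_mul hn m
    have hc : comp a x = (fun i : ℕ => pt a x i) '' Set.Iio n := by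
      ext y
      constructor
      · intro hy
        obtain ⟨k, hk⟩ := mem_comp.1 hy
        have h1 : W a x (k % n) y :=
          ((per_mul hn (-(k / n))).trans hk).cast (by rw [Int.emod_def]; ring)
        have h2 : 0 ≤ k % n := Int.emod_nonneg _ (by omega)
        have h3 : k % n < n := Int.emod_lt_of_pos _ (by omega)
        exact ⟨(k % n).toNat, by simp only [Set.mem_Iio]; omega,
          (hp _).uniq (h1.cast (by omega))⟩
      · rintro ⟨i, -, rfl⟩
        exact (hp i).mem
    have hi : Set.InjOn (fun i : ℕ => pt a x i) (Set.Iio n) := by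
      intro i hi j hj e
      have h1 := hp i
      simp only at e
      rw [e] at h1
      have h2 := (hdvd _).1 (h1.trans (hp j).symm)
      simp only [Set.mem_Iio] at hi hj
      have := Int.eq_zero_of_abs_lt_dvd h2 (by rw [abs_lt]; omega)
      omega
    rw [hc, hi.encard_image, encard_Iio]
    simpa using hdvd k
  · have h0 : ∀ k : ℤ, W a x k x → k = 0 := by
      intro k hk
      by_contra hne
      rcases lt_or_gt_of_ne hne with hl | hl
      · exact hex ⟨(-k).toNat, by omega, hk.symm.cast (by omega)⟩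
      · exact hex ⟨k.toNat, by omega, hk.cast (by omega)⟩
    have hinf : (comp a x).Infinite := by
      refine Set.infinite_of_injective_forall_mem (f := fun i : ℕ => pt a x i) ?_
        fun i => (hp i).mem
      intro i j e
      have h1 := hp i
      simp only at e
      rw [e] at h1
      have := h0 _ (h1.trans (hp j).symm)
      omega
    rw [hinf.encard_eq]
    simp only [ENat.toNat_top, Nat.cast_zero, zero_dvd_iff]
    exact ⟨h0 k, fun e => e ▸ W.refl⟩

theorem encard_ne_zero (x : X) : (comp a x).encard ≠ 0 := by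
  rw [Ne, Set.encard_eq_zero]
  exact Set.Nonempty.ne_empty ⟨x, self_mem x⟩

theorem right_top {x : X} (h : HasStart a (comp a x)) (h' : ¬ HasEnd a (comp a x)) :
    (comp a x).encard = ⊤ := by
  obtain ⟨s, hx, hs⟩ := h
  rw [comp_eq hx] at h' ⊢
  have h1 := (noEnd_per h' _).2 dvd_rfl
  have h2 := start_le hs h1.symm
  have h3 : (comp a s).encard.toNat = 0 := by omega
  rcases ENat.toNat_eq_zero.1 h3 with e | e
  exacts [absurd e (encard_ne_zero s), e]

end Pool.Agent.H.MP_3f621b_al
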